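import Mathlib

/-!
Finite simplicial complexes, links, connectedness, normal 3-pseudomanifolds and 3-neighborliness,
exactly as in the problem file of MP_d69851_co.
-/

namespace H37M

/-- A finite (abstract) simplicial complex whose vertices lie in `V`: a finite family of finite
subsets of `V`, containing the empty set and closed under taking subsets. -/
structure Cplx (V : Type) [DecidableEq V] where
  faces : Finset (Finset V)
  empty_mem : ∅ ∈ faces
  down : ∀ s ∈ faces, ∀ t, t ⊆ s → t ∈ faces

variable {V : Type} [DecidableEq V]

/-- The set of vertices of `K`: the elements of its faces. -/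
def verts (K : Cplx V) : Finset V := K.faces.biUnion id

/-- The link of a face `σ`: the faces `τ` disjoint from `σ` with `τ ∪ σ` a face. -/
def link (K : Cplx V) (σ : Finset V) : Finset (Finset V) :=
  K.faces.filter (fun τ => Disjoint τ σ ∧ τ ∪ σ ∈ K.faces)

/-- A family `L` of finite sets (the faces of a complex) is connected: it has a vertex, and any
two of its vertices are joined by a path of edges of `L`. -/
def Conn (L : Finset (Finset V)) : Prop :=
  (∃ v : V, {v} ∈ L) ∧
    ∀ v w : V, {v} ∈ L → {w} ∈ L → Relation.ReflTransGen (fun x y : V => {x, y} ∈ L) v w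

/-- `K` is a normal 3-pseudomanifold (without boundary): pure of dimension 3, every triangle lies
in exactly two tetrahedra, and the link of every face of dimension at most 1 (the empty face
included) is connected. -/
structure IsNormal3 (K : Cplx V) : Prop where
  dim_le : ∀ s ∈ K.faces, s.card ≤ 4
  pure : ∀ s ∈ K.faces, ∃ t ∈ K.faces, s ⊆ t ∧ t.card = 4
  two : ∀ s ∈ K.faces, s.card = 3 → (K.faces.filter (fun t => s ⊆ t ∧ t.card = 4)).card = 2
  conn : ∀ s ∈ K.faces, s.card ≤ 2 → Conn (link K s)

/-- `K` is 3-neighborly: any three distinct vertices of `K` span a triangle of `K`. -/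
def Nbly3 (K : Cplx V) : Prop :=
  ∀ a ∈ verts K, ∀ b ∈ verts K, ∀ c ∈ verts K, a ≠ b → a ≠ c → b ≠ c → {a, b, c} ∈ K.faces

/-- There is a 3-neighborly normal 3-pseudomanifold with exactly `n` vertices. -/
def Exists3Nbly (n : ℕ) : Prop :=
  ∃ (V : Type) (_ : DecidableEq V) (K : Cplx V), IsNormal3 K ∧ Nbly3 K ∧ (verts K).card = n

end H37M
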