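import Mathlib
import Pool.Agent.Lib.H37M.Defs

/-!
From two Steiner quadruple systems, given by their completion functions, to a complex.
-/

namespace H37M

/-- completion function of a Steiner quadruple system -/
structure SQ {V : Type} (w : V → V → V → V) : Prop where
  s12 : ∀ a b c, w a b c = w b a c
  s23 : ∀ a b c, w a b c = w a c b
  ne : ∀ a b c, a ≠ b → a ≠ c → b ≠ c → w a b c ≠ a
  inv : ∀ a b c, a ≠ b → a ≠ c → b ≠ c → w a b (w a b c) = c

/-- one step in the link of the pair `p, p'` -/
def Rl {V : Type} (w b : V → V → V → V) (p p' : V) : V → V → Prop :=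
  fun x y => x ≠ p ∧ x ≠ p' ∧ (y = w p p' x ∨ y = b p p' x)

/-- reachability in the link of the pair `p, p'` -/
def Reach {V : Type} (w b : V → V → V → V) (p p' : V) : V → V → Prop :=
  Relation.ReflTransGen (Rl w b p p')

/-- the link of the pair `p, p'` is connected -/
def Cn {V : Type} (w b : V → V → V → V) (p p' : V) : Prop :=
  ∀ x y, x ≠ p → x ≠ p' → y ≠ p → y ≠ p' → Reach w b p p' x y

section
variable {V : Type} {w b : V → V → V → V}

theorem SQ.ne2 (h : SQ w) (a b c : V) (h1 : a ≠ b) (h2 : a ≠ c) (h3 : b ≠ c) : w a b c ≠ b := by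
  rw [h.s12]; exact h.ne _ _ _ h1.symm h3 h2

theorem SQ.ne3 (h : SQ w) (a b c : V) (h1 : a ≠ b) (h2 : a ≠ c) (h3 : b ≠ c) : w a b c ≠ c := by
  rw [h.s23, h.s12]; exact h.ne _ _ _ h2.symm h3.symm h1

theorem Rl.symm (hw : SQ w) (hb : SQ b) {p p' : V} (hp : p ≠ p') {x y : V}
    (h : Rl w b p p' x y) : Rl w b p p' y x := by
  obtain ⟨h1, h2, h3⟩ := h
  rcases h3 with h3 | h3
  · subst h3
    refine ⟨hw.ne _ _ _ hp h1.symm h2.symm, hw.ne2 _ _ _ hp h1.symm h2.symm, Or.inl ?_⟩
    exact (hw.inv _ _ _ hp h1.symm h2.symm).symm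
  · subst h3
    refine ⟨hb.ne _ _ _ hp h1.symm h2.symm, hb.ne2 _ _ _ hp h1.symm h2.symm, Or.inr ?_⟩
    exact (hb.inv _ _ _ hp h1.symm h2.symm).symm

theorem Reach.symm (hw : SQ w) (hb : SQ b) {p p' : V} (hp : p ≠ p') {x y : V}
    (h : Reach w b p p' x y) : Reach w b p p' y x :=
  (@Relation.ReflTransGen.stdSymm _ _ ⟨fun _ _ h => Rl.symm hw hb hp h⟩).symm _ _ h

theorem Reach.trans {p p' x y z : V} (h : Reach w b p p' x y) (h' : Reach w b p p' y z) :
    Reach w b p p' x z := Relation.ReflTransGen.trans h h'

theorem Reach.refl {p p' x : V} : Reach w b p p' x x := Relation.ReflTransGen.refl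

theorem Reach.white {p p' x : V} (h : x ≠ p) (h' : x ≠ p') : Reach w b p p' x (w p p' x) :=
  Relation.ReflTransGen.single ⟨h, h', Or.inl rfl⟩

theorem Reach.black {p p' x : V} (h : x ≠ p) (h' : x ≠ p') : Reach w b p p' x (b p p' x) :=
  Relation.ReflTransGen.single ⟨h, h', Or.inr rfl⟩

/-- it is enough to reach a base point -/
theorem Cn.of_base (hw : SQ w) (hb : SQ b) {p p' : V} (hp : p ≠ p') (z : V)
    (h : ∀ x, x ≠ p → x ≠ p' → Reach w b p p' x z) : Cn w b p p' := by
  intro x y h1 h2 h3 h4
  exact (h x h1 h2).trans ((h y h3 h4).symm hw hb hp)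

theorem Cn.symm (hw : SQ w) (hb : SQ b) {p p' : V} (h : Cn w b p p') : Cn w b p' p := by
  intro x y h1 h2 h3 h4
  have := h x y h2 h1 h4 h3
  refine Relation.ReflTransGen.mono ?_ _ _ this
  rintro s t ⟨k1, k2, k3⟩
  refine ⟨k2, k1, ?_⟩
  rw [hw.s12 p' p, hb.s12 p' p]; exact k3

theorem Cn.swap {p p' : V} (h : Cn w b p p') : Cn b w p p' := by
  intro x y h1 h2 h3 h4
  have := h x y h1 h2 h3 h4
  refine Relation.ReflTransGen.mono ?_ _ _ this
  rintro s t ⟨k1, k2, k3⟩
  exact ⟨k1, k2, k3.symm⟩

theorem Cn.transport {V' : Type} {w' b' : V' → V' → V' → V'} (φ : V ≃ V')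
    (hw : ∀ x y z, φ (w x y z) = w' (φ x) (φ y) (φ z))
    (hb : ∀ x y z, φ (b x y z) = b' (φ x) (φ y) (φ z))
    {p p' : V} (h : Cn w b p p') : Cn w' b' (φ p) (φ p') := by
  intro x y h1 h2 h3 h4
  have e1 : φ.symm x ≠ p := fun h => h1 (by rw [← h]; simp)
  have e2 : φ.symm x ≠ p' := fun h => h2 (by rw [← h]; simp)
  have e3 : φ.symm y ≠ p := fun h => h3 (by rw [← h]; simp)
  have e4 : φ.symm y ≠ p' := fun h => h4 (by rw [← h]; simp)
  have key : ∀ s t, Reach w b p p' s t → Reach w' b' (φ p) (φ p') (φ s) (φ t) := by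
    intro s t hst
    induction hst with
    | refl => exact Reach.refl
    | tail _ h2 ih =>
      refine ih.trans (Relation.ReflTransGen.single ?_)
      obtain ⟨k1, k2, k3⟩ := h2
      refine ⟨fun h => k1 (φ.injective h), fun h => k2 (φ.injective h), ?_⟩
      rcases k3 with k3 | k3
      · left; rw [k3, hw]
      · right; rw [k3, hb]
  have := key _ _ (h _ _ e1 e2 e3 e4)
  simpa using this

end

section
variable {V : Type} [Fintype V] [DecidableEq V] {w b : V → V → V → V}

theorem exists_not_mem (h5 : 5 ≤ Fintype.card V) (a b c d : V) :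
    ∃ x, x ≠ a ∧ x ≠ b ∧ x ≠ c ∧ x ≠ d := by
  by_contra hcon
  push Not at hcon
  have : (Finset.univ : Finset V) ⊆ {a, b, c, d} := by
    intro x _
    by_cases h1 : x = a
    · simp [h1]
    by_cases h2 : x = b
    · simp [h2]
    by_cases h3 : x = c
    · simp [h3]
    simp [hcon x h1 h2 h3]
  have h1 := Finset.card_le_card this
  have h2 : ({a, b, c, d} : Finset V).card ≤ 4 := Finset.card_le_four
  rw [Finset.card_univ] at h1
  omega

theorem wb_ne (hw : SQ w) (hb : SQ b) (h5 : 5 ≤ Fintype.card V)
    (hc : ∀ p p', p ≠ p' → Cn w b p p') (p p' x : V) (h1 : p ≠ p') (h2 : p ≠ x) (h3 : p' ≠ x) :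
    w p p' x ≠ b p p' x := by
  intro heq
  obtain ⟨z, z1, z2, z3, z4⟩ := exists_not_mem h5 p p' x (w p p' x)
  have hr := hc p p' h1 x z h2.symm h3.symm z1 z2
  have key : ∀ t, Reach w b p p' x t → t = x ∨ t = w p p' x := by
    intro t ht
    induction ht with
    | refl => exact Or.inl rfl
    | tail _ h2' ih =>
      obtain ⟨k1, k2, k3⟩ := h2'
      rcases ih with ih | ih
      · subst ih
        rcases k3 with k3 | k3
        · exact Or.inr k3
        · rw [← heq] at k3; exact Or.inr k3
      · subst ih
        rcases k3 with k3 | k3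
        · left; rw [k3, hw.inv _ _ _ h1 h2 h3]
        · left; rw [k3, heq, hb.inv _ _ _ h1 h2 h3]
  rcases key z hr with h | h
  · exact z3 h
  · exact z4 h

/-- the blocks -/
def blk (w : V → V → V → V) : Finset (Finset V) :=
  Finset.univ.filter (fun B => B.card = 4 ∧
    ∀ a ∈ B, ∀ b ∈ B, ∀ c ∈ B, a ≠ b → a ≠ c → b ≠ c → w a b c ∈ B)

theorem blk_uniq (hw : SQ w) {B : Finset V} (hB : B ∈ blk w) {a b c : V} (ha : a ∈ B) (hb : b ∈ B)
    (hc : c ∈ B) (h1 : a ≠ b) (h2 : a ≠ c) (h3 : b ≠ c) : B = {a, b, c, w a b c} := by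
  simp only [blk, Finset.mem_filter, Finset.mem_univ, true_and] at hB
  obtain ⟨hB4, hB⟩ := hB
  symm
  apply Finset.eq_of_subset_of_card_le
  · intro x hx
    simp only [Finset.mem_insert, Finset.mem_singleton] at hx
    rcases hx with rfl | rfl | rfl | rfl
    · exact ha
    · exact hb
    · exact hc
    · exact hB a ha b hb c hc h1 h2 h3
  · have e1 := hw.ne a b c h1 h2 h3
    have e2 := hw.ne2 a b c h1 h2 h3
    have e3 := hw.ne3 a b c h1 h2 h3
    rw [hB4, Finset.card_insert_of_notMem, Finset.card_insert_of_notMem,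
      Finset.card_insert_of_notMem, Finset.card_singleton]
    · simpa using e3.symm
    · simp only [Finset.mem_insert, Finset.mem_singleton, not_or]
      exact ⟨h3, e2.symm⟩
    · simp only [Finset.mem_insert, Finset.mem_singleton, not_or]
      exact ⟨h1, h2, e1.symm⟩

theorem blk_mem (hw : SQ w) {a b c : V} (h1 : a ≠ b) (h2 : a ≠ c) (h3 : b ≠ c) :
    ({a, b, c, w a b c} : Finset V) ∈ blk w := by
  simp only [blk, Finset.mem_filter, Finset.mem_univ, true_and]
  have e1 := hw.ne a b c h1 h2 h3
  have e2 := hw.ne2 a b c h1 h2 h3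
  have e3 := hw.ne3 a b c h1 h2 h3
  set d := w a b c with hd
  have kd : w a b d = c := hw.inv a b c h1 h2 h3
  have kc : w a c d = b := by
    have := hw.inv a c b h2 h1 h3.symm
    rw [hw.s23 a c b, ← hd] at this
    exact this
  have kb : w b c d = a := by
    have := hw.inv b c a h3 h1.symm h2.symm
    rw [hw.s23 b c a, hw.s12 b a c, ← hd] at this
    exact this
  refine ⟨?_, ?_⟩
  · rw [Finset.card_insert_of_notMem, Finset.card_insert_of_notMem,
      Finset.card_insert_of_notMem, Finset.card_singleton]
    · simpa using e3.symm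
    · simp only [Finset.mem_insert, Finset.mem_singleton, not_or]
      exact ⟨h3, e2.symm⟩
    · simp only [Finset.mem_insert, Finset.mem_singleton, not_or]
      exact ⟨h1, h2, e1.symm⟩
  · have S1 := hw.s12
    have S2 := hw.s23
    have p1 : ∀ x y z t, w x y z = t → w y x z = t := fun x y z t h => by rw [S1 y x z, h]
    have p2 : ∀ x y z t, w x y z = t → w x z y = t := fun x y z t h => by rw [S2 x z y, h]
    have kd' : w a b c = d := hd.symm
    intro x hx y hy z hz hxy hxz hyz
    simp only [Finset.mem_insert, Finset.mem_singleton] at hx hy hz ⊢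
    rcases hx with rfl | rfl | rfl | rfl <;> rcases hy with rfl | rfl | rfl | rfl <;>
      rcases hz with rfl | rfl | rfl | rfl <;>
      first
      | exact absurd rfl hxy
      | exact absurd rfl hxz
      | exact absurd rfl hyz
      | (right; right; right; first
          | exact kd' | exact p1 _ _ _ _ kd' | exact p2 _ _ _ _ kd'
          | exact p1 _ _ _ _ (p2 _ _ _ _ kd') | exact p2 _ _ _ _ (p1 _ _ _ _ kd')
          | exact p1 _ _ _ _ (p2 _ _ _ _ (p1 _ _ _ _ kd')))
      | (right; right; left; first
          | exact kd | exact p1 _ _ _ _ kd | exact p2 _ _ _ _ kd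
          | exact p1 _ _ _ _ (p2 _ _ _ _ kd) | exact p2 _ _ _ _ (p1 _ _ _ _ kd)
          | exact p1 _ _ _ _ (p2 _ _ _ _ (p1 _ _ _ _ kd)))
      | (right; left; first
          | exact kc | exact p1 _ _ _ _ kc | exact p2 _ _ _ _ kc
          | exact p1 _ _ _ _ (p2 _ _ _ _ kc) | exact p2 _ _ _ _ (p1 _ _ _ _ kc)
          | exact p1 _ _ _ _ (p2 _ _ _ _ (p1 _ _ _ _ kc)))
      | (left; first
          | exact kb | exact p1 _ _ _ _ kb | exact p2 _ _ _ _ kb
          | exact p1 _ _ _ _ (p2 _ _ _ _ kb) | exact p2 _ _ _ _ (p1 _ _ _ _ kb)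
          | exact p1 _ _ _ _ (p2 _ _ _ _ (p1 _ _ _ _ kb)))

/-- the complex of two quadruple systems -/
def cx (w b : V → V → V → V) (hne : (blk w).Nonempty) : Cplx V where
  faces := Finset.univ.filter (fun s => ∃ B, (B ∈ blk w ∨ B ∈ blk b) ∧ s ⊆ B)
  empty_mem := by
    obtain ⟨B, hB⟩ := hne
    simp only [Finset.mem_filter, Finset.mem_univ, true_and]
    exact ⟨B, Or.inl hB, Finset.empty_subset _⟩
  down := by
    intro s hs t hts
    simp only [Finset.mem_filter, Finset.mem_univ, true_and] at hs ⊢
    obtain ⟨B, hB, hs⟩ := hs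
    exact ⟨B, hB, hts.trans hs⟩

theorem mem_cx {hne : (blk w).Nonempty} {s : Finset V} :
    s ∈ (cx w b hne).faces ↔ ∃ B, (B ∈ blk w ∨ B ∈ blk b) ∧ s ⊆ B := by
  simp [cx]

theorem card_blk {B : Finset V} (h : B ∈ blk w ∨ B ∈ blk b) : B.card = 4 := by
  rcases h with h | h
  · simp only [blk, Finset.mem_filter] at h; exact h.2.1
  · simp only [blk, Finset.mem_filter] at h; exact h.2.1

theorem tri_mem (hw : SQ w) {hne : (blk w).Nonempty} {x y z : V} (h1 : x ≠ y) (h2 : x ≠ z)
    (h3 : y ≠ z) : ({x, y, z} : Finset V) ∈ (cx w b hne).faces := by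
  rw [mem_cx]
  refine ⟨_, Or.inl (blk_mem hw h1 h2 h3), ?_⟩
  intro t ht
  simp only [Finset.mem_insert, Finset.mem_singleton] at ht ⊢
  tauto

theorem pair_mem (hw : SQ w) (h5 : 5 ≤ Fintype.card V) {hne : (blk w).Nonempty} (x y : V) :
    ({x, y} : Finset V) ∈ (cx w b hne).faces := by
  obtain ⟨z, z1, z2, _, _⟩ := exists_not_mem h5 x y x x
  obtain ⟨t, t1, t2, t3, _⟩ := exists_not_mem h5 x y z z
  by_cases hxy : x = y
  · refine (cx w b hne).down _ (tri_mem hw z1.symm t1.symm t3.symm) _ ?_
    intro s hs
    simp only [Finset.mem_insert, Finset.mem_singleton] at hs ⊢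
    rw [← hxy] at hs; tauto
  · refine (cx w b hne).down _ (tri_mem hw hxy z1.symm z2.symm) _ ?_
    intro s hs
    simp only [Finset.mem_insert, Finset.mem_singleton] at hs ⊢
    tauto

theorem sing_mem (hw : SQ w) (h5 : 5 ≤ Fintype.card V) {hne : (blk w).Nonempty} (x : V) :
    ({x} : Finset V) ∈ (cx w b hne).faces := by
  have := pair_mem (w := w) (b := b) hw h5 (hne := hne) x x
  simpa using this

theorem verts_cx (hw : SQ w) (h5 : 5 ≤ Fintype.card V) {hne : (blk w).Nonempty} :
    verts (cx w b hne) = Finset.univ := by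
  apply Finset.eq_univ_of_forall
  intro x
  simp only [verts, Finset.mem_biUnion, id]
  exact ⟨{x}, sing_mem hw h5 x, by simp⟩

theorem main_complex (hw : SQ w) (hb : SQ b) (h5 : 5 ≤ Fintype.card V)
    (hc : ∀ p p', p ≠ p' → Cn w b p p') :
    ∃ K : Cplx V, IsNormal3 K ∧ Nbly3 K ∧ (verts K).card = Fintype.card V := by
  have hV : Nonempty V := Fintype.card_pos_iff.mp (by omega)
  obtain ⟨v0⟩ := hV
  obtain ⟨v1, h01, _, _, _⟩ := exists_not_mem h5 v0 v0 v0 v0
  obtain ⟨v2, h02, h12, _, _⟩ := exists_not_mem h5 v0 v1 v0 v0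
  have hne : (blk w).Nonempty := ⟨_, blk_mem hw h01.symm h02.symm h12.symm⟩
  refine ⟨cx w b hne, ?_, ?_, ?_⟩
  · constructor
    · intro s hs
      rw [mem_cx] at hs
      obtain ⟨B, hB, hs⟩ := hs
      rw [← card_blk hB]
      exact Finset.card_le_card hs
    · intro s hs
      rw [mem_cx] at hs
      obtain ⟨B, hB, hs⟩ := hs
      exact ⟨B, mem_cx.2 ⟨B, hB, Finset.Subset.refl _⟩, hs, card_blk hB⟩
    · intro s _ hs3
      obtain ⟨x, y, z, hxy, hxz, hyz, rfl⟩ := Finset.card_eq_three.1 hs3
      have : (cx w b hne).faces.filter (fun t => {x, y, z} ⊆ t ∧ t.card = 4) =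
          {{x, y, z, w x y z}, {x, y, z, b x y z}} := by
        ext t
        simp only [Finset.mem_filter, mem_cx, Finset.mem_insert, Finset.mem_singleton]
        constructor
        · rintro ⟨⟨B, hB, htB⟩, hxt, ht4⟩
          have : t = B := Finset.eq_of_subset_of_card_le htB (by rw [ht4, card_blk hB])
          subst this
          have hx : x ∈ t := hxt (by simp)
          have hy : y ∈ t := hxt (by simp)
          have hz : z ∈ t := hxt (by simp)
          rcases hB with hB | hB
          · left; exact blk_uniq hw hB hx hy hz hxy hxz hyz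
          · right; exact blk_uniq hb hB hx hy hz hxy hxz hyz
        · rintro (rfl | rfl)
          · have hm := blk_mem hw hxy hxz hyz
            refine ⟨⟨_, Or.inl hm, Finset.Subset.refl _⟩, ?_, card_blk (w := w) (b := w) (Or.inl hm)⟩
            intro t ht
            simp only [Finset.mem_insert, Finset.mem_singleton] at ht ⊢
            tauto
          · have hm := blk_mem hb hxy hxz hyz
            refine ⟨⟨_, Or.inr hm, Finset.Subset.refl _⟩, ?_, card_blk (w := b) (b := b) (Or.inl hm)⟩
            intro t ht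
            simp only [Finset.mem_insert, Finset.mem_singleton] at ht ⊢
            tauto
      rw [this]
      apply Finset.card_pair
      intro heq
      have hmem : w x y z ∈ ({x, y, z, b x y z} : Finset V) := by rw [← heq]; simp
      simp only [Finset.mem_insert, Finset.mem_singleton] at hmem
      rcases hmem with h | h | h | h
      · exact hw.ne _ _ _ hxy hxz hyz h
      · exact hw.ne2 _ _ _ hxy hxz hyz h
      · exact hw.ne3 _ _ _ hxy hxz hyz h
      · exact wb_ne hw hb h5 hc x y z hxy hxz hyz h
    · intro s hs hs2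
      have hs2' : s.card = 0 ∨ s.card = 1 ∨ s.card = 2 := by omega
      rcases hs2' with h | h | h
      · rw [Finset.card_eq_zero] at h
        subst h
        refine ⟨⟨v0, ?_⟩, ?_⟩
        · simp only [link, Finset.mem_filter, Finset.disjoint_empty_right, Finset.union_empty,
            true_and, and_self]
          exact sing_mem hw h5 v0
        · intro v v' _ _
          refine Relation.ReflTransGen.single ?_
          simp only [link, Finset.mem_filter, Finset.disjoint_empty_right, Finset.union_empty,
            true_and, and_self]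
          exact pair_mem hw h5 v v'
      · obtain ⟨p, rfl⟩ := Finset.card_eq_one.1 h
        have hl : ∀ x y, x ≠ p → y ≠ p → ({x, y} : Finset V) ∈ link (cx w b hne) {p} := by
          intro x y hx hy
          simp only [link, Finset.mem_filter]
          refine ⟨pair_mem hw h5 x y, ?_, ?_⟩
          · rw [Finset.disjoint_singleton_right]
            simp only [Finset.mem_insert, Finset.mem_singleton, not_or]
            exact ⟨hx.symm, hy.symm⟩
          · by_cases hxy : x = y
            · refine (cx w b hne).down _ (pair_mem hw h5 x p) _ ?_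
              intro t ht
              simp only [Finset.mem_union, Finset.mem_insert, Finset.mem_singleton] at ht ⊢
              rw [← hxy] at ht; tauto
            · refine (cx w b hne).down _ (tri_mem hw hxy hx hy) _ ?_
              intro t ht
              simp only [Finset.mem_union, Finset.mem_insert, Finset.mem_singleton] at ht ⊢
              tauto
        obtain ⟨q, hq, _, _, _⟩ := exists_not_mem h5 p p p p
        refine ⟨⟨q, ?_⟩, ?_⟩
        · have := hl q q hq hq
          simpa using this
        · intro v v' hv hv'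
          have hvp : v ≠ p := by
            simp only [link, Finset.mem_filter] at hv
            have := hv.2.1
            rw [Finset.disjoint_singleton_right] at this
            simp only [Finset.mem_singleton] at this
            exact fun h => this h.symm
          have hvp' : v' ≠ p := by
            simp only [link, Finset.mem_filter] at hv'
            have := hv'.2.1
            rw [Finset.disjoint_singleton_right] at this
            simp only [Finset.mem_singleton] at this
            exact fun h => this h.symm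
          exact Relation.ReflTransGen.single (hl v v' hvp hvp')
      · obtain ⟨p, p', hpp, rfl⟩ := Finset.card_eq_two.1 h
        have hout : ∀ v, {v} ∈ link (cx w b hne) {p, p'} → v ≠ p ∧ v ≠ p' := by
          intro v hv
          simp only [link, Finset.mem_filter] at hv
          have := hv.2.1
          rw [Finset.disjoint_singleton_left] at this
          simp only [Finset.mem_insert, Finset.mem_singleton, not_or] at this
          exact this
        have hl1 : ∀ x, x ≠ p → x ≠ p' → ({x, w p p' x} : Finset V) ∈ link (cx w b hne) {p, p'} := by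
          intro x hx hx'
          simp only [link, Finset.mem_filter]
          refine ⟨pair_mem hw h5 _ _, ?_, ?_⟩
          · rw [Finset.disjoint_left]
            intro t ht
            simp only [Finset.mem_insert, Finset.mem_singleton, not_or] at ht ⊢
            rcases ht with rfl | rfl
            · exact ⟨hx, hx'⟩
            · exact ⟨hw.ne _ _ _ hpp hx.symm hx'.symm, hw.ne2 _ _ _ hpp hx.symm hx'.symm⟩
          · rw [mem_cx]
            refine ⟨_, Or.inl (blk_mem hw hpp hx.symm hx'.symm), ?_⟩
            intro t ht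
            simp only [Finset.mem_union, Finset.mem_insert, Finset.mem_singleton] at ht ⊢
            tauto
        have hl2 : ∀ x, x ≠ p → x ≠ p' → ({x, b p p' x} : Finset V) ∈ link (cx w b hne) {p, p'} := by
          intro x hx hx'
          simp only [link, Finset.mem_filter]
          refine ⟨pair_mem hw h5 _ _, ?_, ?_⟩
          · rw [Finset.disjoint_left]
            intro t ht
            simp only [Finset.mem_insert, Finset.mem_singleton, not_or] at ht ⊢
            rcases ht with rfl | rfl
            · exact ⟨hx, hx'⟩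
            · exact ⟨hb.ne _ _ _ hpp hx.symm hx'.symm, hb.ne2 _ _ _ hpp hx.symm hx'.symm⟩
          · rw [mem_cx]
            refine ⟨_, Or.inr (blk_mem hb hpp hx.symm hx'.symm), ?_⟩
            intro t ht
            simp only [Finset.mem_union, Finset.mem_insert, Finset.mem_singleton] at ht ⊢
            tauto
        obtain ⟨q, hq, hq', _, _⟩ := exists_not_mem h5 p p' p p
        refine ⟨⟨q, ?_⟩, ?_⟩
        · simp only [link, Finset.mem_filter]
          refine ⟨sing_mem hw h5 q, ?_, ?_⟩
          · rw [Finset.disjoint_singleton_left]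
            simp only [Finset.mem_insert, Finset.mem_singleton, not_or]
            exact ⟨hq, hq'⟩
          · refine (cx w b hne).down _ (tri_mem hw hpp hq.symm hq'.symm) _ ?_
            intro t ht
            simp only [Finset.mem_union, Finset.mem_insert, Finset.mem_singleton] at ht ⊢
            tauto
        · intro v v' hv hv'
          obtain ⟨a1, a2⟩ := hout v hv
          obtain ⟨a3, a4⟩ := hout v' hv'
          have := hc p p' hpp v v' a1 a2 a3 a4
          refine Relation.ReflTransGen.mono ?_ _ _ this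
          rintro s t ⟨k1, k2, k3⟩
          rcases k3 with rfl | rfl
          · exact hl1 s k1 k2
          · exact hl2 s k1 k2
  · intro x _ y _ z _ h1 h2 h3
    exact tri_mem hw h1 h2 h3
  · rw [verts_cx hw h5, Finset.card_univ]

end

end H37M
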