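import Mathlib
import Pool.Agent.Lib.H37M.Sys

/-!
The doubling quadruple systems on `F × Bool`, `F` a finite field of characteristic 2.
-/

namespace H37M

set_option linter.unusedSectionVars false

section
variable {F : Type} [Field F] [Fintype F] [DecidableEq F] [CharP F 2]

/-- square root -/
def rt (g : F) : F := g ^ (Fintype.card F / 2)

theorem two_dvd_card : 2 ∣ Fintype.card F := by
  have : Fact (Nat.Prime 2) := ⟨Nat.prime_two⟩
  obtain ⟨n, _, h2⟩ := FiniteField.card F 2
  rw [h2]
  exact dvd_pow_self 2 n.ne_zero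

theorem rt_sq (g : F) : rt g ^ 2 = g := by
  rw [rt, ← pow_mul, Nat.div_mul_cancel two_dvd_card]
  exact FiniteField.pow_card g

theorem rt_of_sq (g : F) : rt (g ^ 2) = g := by
  rw [rt, ← pow_mul, Nat.mul_div_cancel' two_dvd_card]
  exact FiniteField.pow_card g

theorem rt_mul (g h : F) : rt (g * h) = rt g * rt h := mul_pow _ _ _

theorem rt_inv (g : F) : rt (g⁻¹) = (rt g)⁻¹ := inv_pow _ _

theorem rt_ne_zero {g : F} (h : g ≠ 0) : rt g ≠ 0 := pow_ne_zero _ h

/-- the labels of pairs -/
def L (x y : F) : F := if x = 0 then y ^ 2 else if y = 0 then x ^ 2 else x * y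

/-- the mate of `z` under the label `g` -/
def D (z g : F) : F := if z = 0 then rt g else if g = z ^ 2 then 0 else g / z

theorem L_comm (x y : F) : L x y = L y x := by
  unfold L
  by_cases hx : x = 0 <;> by_cases hy : y = 0 <;> simp [hx, hy, mul_comm]

theorem L_ne {x y : F} (h : x ≠ y) : L x y ≠ 0 := by
  unfold L
  by_cases hx : x = 0
  · subst hx; simpa using h.symm
  · by_cases hy : y = 0
    · simp [hx, hy]
    · simp [hx, hy]

theorem L_D (x : F) {g : F} (hg : g ≠ 0) : L x (D x g) = g := by
  unfold L D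
  by_cases hx : x = 0
  · simp [hx, rt_sq]
  · by_cases h : g = x ^ 2
    · simp [hx, h]
    · have : g / x ≠ 0 := div_ne_zero hg hx
      simp only [hx, h, if_false, this]
      field_simp

theorem D_L {x y : F} (h : x ≠ y) : D x (L x y) = y := by
  unfold L D
  by_cases hx : x = 0
  · simp [hx, rt_of_sq]
  · by_cases hy : y = 0
    · simp [hx, hy]
    · have : ¬ x * y = x ^ 2 := by
        intro h'
        rw [pow_two] at h'
        exact h (mul_left_cancel₀ hx h').symm
      simp only [hx, hy, if_false, this]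
      field_simp

theorem D_ne (x : F) {g : F} (hg : g ≠ 0) : D x g ≠ x := by
  unfold D
  by_cases hx : x = 0
  · simpa [hx] using rt_ne_zero hg
  · by_cases h : g = x ^ 2
    · simpa [hx, h] using fun h => hx h.symm
    · simp only [hx, h, if_false]
      intro h'
      apply h
      rw [div_eq_iff hx] at h'
      rw [h', pow_two]

theorem D_D (x : F) {g : F} (hg : g ≠ 0) : D (D x g) g = x := by
  have h1 := L_D x hg
  rw [L_comm] at h1
  have h2 := D_L (D_ne x hg)
  rw [h1] at h2
  exact h2

theorem L_inv (x y : F) : L x⁻¹ y⁻¹ = (L x y)⁻¹ := by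
  unfold L
  by_cases hx : x = 0 <;> by_cases hy : y = 0 <;> simp [hx, hy, mul_comm]

theorem D_inv (z g : F) : D z⁻¹ g⁻¹ = (D z g)⁻¹ := by
  unfold D
  by_cases hz : z = 0
  · simp [hz, rt_inv]
  · by_cases h : g = z ^ 2
    · simp [hz, h]
    · have : ¬ g⁻¹ = z⁻¹ ^ 2 := by
        rw [inv_pow]
        intro h'
        exact h (inv_injective h')
      simp only [inv_eq_zero, hz, h, this, if_false]
      rw [div_eq_mul_inv, div_eq_mul_inv, mul_inv]

theorem L_scale {c : F} (hc : c ≠ 0) (x y : F) : L (c * x) (c * y) = c ^ 2 * L x y := by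
  unfold L
  by_cases hx : x = 0
  · simp [hx, mul_pow]
  · by_cases hy : y = 0
    · simp [hx, hy, hc, mul_pow]
    · simp only [mul_eq_zero, hx, hy, hc, or_self, if_false]
      ring

theorem D_scale {c : F} (hc : c ≠ 0) (z g : F) : D (c * z) (c ^ 2 * g) = c * D z g := by
  unfold D
  by_cases hz : z = 0
  · simp [hz, rt_mul, rt_of_sq]
  · by_cases h : g = z ^ 2
    · have : c ^ 2 * g = (c * z) ^ 2 := by rw [h, mul_pow]
      rw [if_neg (mul_ne_zero hc hz), if_pos this, if_neg hz, if_pos h, mul_zero]
    · have : ¬ c ^ 2 * g = (c * z) ^ 2 := by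
        rw [mul_pow]
        intro h'
        exact h (mul_left_cancel₀ (pow_ne_zero 2 hc) h')
      simp only [mul_eq_zero, hz, hc, h, this, or_self, if_false]
      field_simp

/-- the Boolean quadruple systems: sum, and sum of inverses -/
def S (e : Bool) (x y z : F) : F := if e then (x⁻¹ + y⁻¹ + z⁻¹)⁻¹ else x + y + z

omit [Fintype F] [DecidableEq F] in
theorem add_self' (x : F) : x + x = 0 := CharTwo.add_self_eq_zero x

omit [Fintype F] [DecidableEq F] in
theorem add3 (x y z : F) : x + y + (x + y + z) = z := by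
  have h1 := add_self' x
  have h2 := add_self' y
  calc x + y + (x + y + z) = (x + x) + (y + y) + z := by ring
    _ = z := by rw [h1, h2]; ring

omit [Fintype F] [DecidableEq F] in
theorem add_eq_self {x y z : F} (h : x + y + z = x) : y = z := by
  have h1 : y + z = 0 := by
    have : x + (y + z) = x + 0 := by rw [← add_assoc, h, add_zero]
    exact add_left_cancel this
  exact (CharTwo.add_eq_zero).1 h1

omit [Fintype F] [DecidableEq F] [CharP F 2] in
theorem S_12 (e : Bool) (x y z : F) : S e x y z = S e y x z := by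
  unfold S; cases e
  · simp only [Bool.false_eq_true, if_false]; ring
  · simp only [if_true]; congr 1; ring

omit [Fintype F] [DecidableEq F] [CharP F 2] in
theorem S_23 (e : Bool) (x y z : F) : S e x y z = S e x z y := by
  unfold S; cases e
  · simp only [Bool.false_eq_true, if_false]; ring
  · simp only [if_true]; congr 1; ring

omit [Fintype F] [DecidableEq F] in
theorem S_inv (e : Bool) (x y z : F) : S e x y (S e x y z) = z := by
  unfold S; cases e
  · simp only [Bool.false_eq_true, if_false]; exact add3 x y z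
  · simp only [if_true, inv_inv]; rw [add3, inv_inv]

omit [Fintype F] [DecidableEq F] in
theorem S_ne (e : Bool) {x y z : F} (h : y ≠ z) : S e x y z ≠ x := by
  unfold S; cases e
  · simp only [Bool.false_eq_true, if_false]; exact fun h' => h (add_eq_self h')
  · simp only [if_true]
    intro h'
    have : x⁻¹ + y⁻¹ + z⁻¹ = x⁻¹ := by rw [← inv_inv (x⁻¹ + y⁻¹ + z⁻¹), h']
    exact h (inv_injective (add_eq_self this))

omit [Fintype F] [DecidableEq F] [CharP F 2] in
theorem S_scale (e : Bool) {c : F} (x y z : F) :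
    S e (c * x) (c * y) (c * z) = c * S e x y z := by
  unfold S; cases e
  · simp only [Bool.false_eq_true, if_false]; ring
  · simp only [if_true, mul_inv]
    rw [← mul_add, ← mul_add, mul_inv, inv_inv]

omit [Fintype F] [DecidableEq F] [CharP F 2] in
theorem S_not (e : Bool) (x y z : F) : S (!e) x⁻¹ y⁻¹ z⁻¹ = (S e x y z)⁻¹ := by
  unfold S; cases e
  · simp
  · simp

/-- the doubling system -/
def T (e : Bool) (l : F) : F × Bool → F × Bool → F × Bool → F × Bool
  | (x, false), (y, false), (z, false) => (S e x y z, false)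
  | (x, true), (y, true), (z, true) => (S (!e) x y z, true)
  | (x, false), (y, false), (z, true) => (D z (l * L x y), true)
  | (x, false), (y, true), (z, false) => (D y (l * L x z), true)
  | (x, true), (y, false), (z, false) => (D x (l * L y z), true)
  | (x, true), (y, true), (z, false) => (D z (l⁻¹ * L x y), false)
  | (x, true), (y, false), (z, true) => (D y (l⁻¹ * L x z), false)
  | (x, false), (y, true), (z, true) => (D x (l⁻¹ * L y z), false)

theorem SQ_T (e : Bool) {l : F} (hl : l ≠ 0) : SQ (T e l) where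
  s12 := by
    rintro ⟨x, (_ | _)⟩ ⟨y, (_ | _)⟩ ⟨z, (_ | _)⟩ <;>
      simp only [T, L_comm x y, S_12 e x y, S_12 (!e) x y]
  s23 := by
    rintro ⟨x, (_ | _)⟩ ⟨y, (_ | _)⟩ ⟨z, (_ | _)⟩ <;>
      simp only [T, L_comm y z, S_23 e x y, S_23 (!e) x y]
  ne := by
    have hl' : l⁻¹ ≠ 0 := inv_ne_zero hl
    rintro ⟨x, (_ | _)⟩ ⟨y, (_ | _)⟩ ⟨z, (_ | _)⟩ h1 h2 h3 <;>
      simp only [ne_eq, Prod.mk.injEq, and_true, and_false, not_false_eq_true,
        Bool.false_eq_true, Bool.true_eq_false] at h1 h2 h3 <;>
      simp only [T, ne_eq, Prod.mk.injEq, and_true, and_false, not_false_eq_true,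
        Bool.false_eq_true, Bool.true_eq_false]
    · exact S_ne e h3
    · exact D_ne _ (mul_ne_zero hl' (L_ne h3))
    · exact D_ne _ (mul_ne_zero hl (L_ne h3))
    · exact S_ne (!e) h3
  inv := by
    have hl' : l⁻¹ ≠ 0 := inv_ne_zero hl
    rintro ⟨x, (_ | _)⟩ ⟨y, (_ | _)⟩ ⟨z, (_ | _)⟩ h1 h2 h3 <;>
      simp only [ne_eq, Prod.mk.injEq, and_true, and_false, not_false_eq_true,
        Bool.false_eq_true, Bool.true_eq_false] at h1 h2 h3 <;>
      simp only [T, Prod.mk.injEq, and_true]
    · exact S_inv e x y z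
    · exact D_D _ (mul_ne_zero hl (L_ne h1))
    · rw [L_D _ (mul_ne_zero hl (L_ne h2)), inv_mul_cancel_left₀ hl, D_L h2]
    · rw [L_D _ (mul_ne_zero hl' (L_ne h3)), mul_inv_cancel_left₀ hl, D_L h3]
    · rw [L_D _ (mul_ne_zero hl (L_ne h3)), inv_mul_cancel_left₀ hl, D_L h3]
    · rw [L_D _ (mul_ne_zero hl' (L_ne h2)), mul_inv_cancel_left₀ hl, D_L h2]
    · exact D_D _ (mul_ne_zero hl' (L_ne h1))
    · exact S_inv (!e) x y z

/-- the swap of the two zeros -/
def tauf (p : F × Bool) : F × Bool := (p.1, if p.1 = 0 then !p.2 else p.2)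

omit [Fintype F] [CharP F 2] in
theorem tauf_tauf (p : F × Bool) : tauf (tauf p) = p := by
  obtain ⟨x, e⟩ := p
  unfold tauf
  by_cases h : x = 0 <;> simp [h]

/-- the swap of the two zeros, as an equivalence -/
def tau : (F × Bool) ≃ (F × Bool) where
  toFun := tauf
  invFun := tauf
  left_inv := tauf_tauf
  right_inv := tauf_tauf

omit [Fintype F] [CharP F 2] in
@[simp] theorem tau_tau (p : F × Bool) : tau (tau p) = p := tauf_tauf p

omit [Fintype F] [CharP F 2] in
theorem tau_ne {x : F} (h : x ≠ 0) (e : Bool) : tau (x, e) = (x, e) := by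
  change tauf (x, e) = _
  simp [tauf, h]

omit [Fintype F] [CharP F 2] in
@[simp] theorem tau_zero (e : Bool) : tau ((0 : F), e) = (0, !e) := by
  change tauf (0, e) = _
  simp [tauf]

end

/-- conjugating a system by an equivalence -/
def conj {V V' : Type} (φ : V ≃ V') (w : V' → V' → V' → V') : V → V → V → V :=
  fun a b c => φ.symm (w (φ a) (φ b) (φ c))

theorem SQ_conj {V V' : Type} (φ : V ≃ V') {w : V' → V' → V' → V'} (h : SQ w) :
    SQ (conj φ w) where
  s12 := fun a b c => by simp only [conj]; rw [h.s12]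
  s23 := fun a b c => by simp only [conj]; rw [h.s23]
  ne := fun a b c h1 h2 h3 h' => by
    simp only [conj] at h'
    rw [Equiv.symm_apply_eq] at h'
    exact h.ne _ _ _ (fun h => h1 (φ.injective h)) (fun h => h2 (φ.injective h))
      (fun h => h3 (φ.injective h)) h'
  inv := fun a b c h1 h2 h3 => by
    simp only [conj, Equiv.apply_symm_apply]
    rw [h.inv _ _ _ (fun h => h1 (φ.injective h)) (fun h => h2 (φ.injective h))
      (fun h => h3 (φ.injective h)), Equiv.symm_apply_apply]

end H37M
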