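import Mathlib

/-!
The element `γ` for which `t ↦ 1/t + γ` is a full cycle on the projective line.
-/

namespace H37M

set_option linter.unusedSectionVars false

/-- the orbit of infinity under `t ↦ 1/t + γ` -/
def rr {F : Type} [Field F] (γ : F) : ℕ → F
  | 0 => γ
  | (n + 1) => (rr γ n)⁻¹ + γ

/-- `ζ ^ n + ζ ^ (- n)` -/
def uu {E : Type} [Field E] (z : E) (n : ℕ) : E := z ^ n + z⁻¹ ^ n

section
variable {E : Type} [Field E] [CharP E 2]

theorem uu_zero (z : E) : uu z 0 = 0 := by
  simp only [uu, pow_zero]; exact CharTwo.add_self_eq_zero 1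

theorem uu_rec {z : E} (hz : z ≠ 0) (n : ℕ) : uu z (n + 2) = uu z 1 * uu z (n + 1) + uu z n := by
  have h : uu z 1 * uu z (n + 1) = uu z (n + 2) + uu z n := by
    simp only [uu, pow_succ, pow_zero, one_mul]
    field_simp
    ring
  rw [h, add_assoc, CharTwo.add_self_eq_zero, add_zero]

theorem uu_ne {z : E} (hz : z ≠ 0) {N : ℕ} (hN : orderOf z = N) (hodd : ¬ 2 ∣ N) {n : ℕ}
    (h1 : 0 < n) (h2 : n < N) : uu z n ≠ 0 := by
  intro h
  have h3 : z ^ n = z⁻¹ ^ n := (CharTwo.add_eq_zero).1 h
  have h4 : z ^ (n * 2) = 1 := by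
    rw [pow_mul, pow_two]
    nth_rewrite 2 [h3]
    rw [← mul_pow, mul_inv_cancel₀ hz, one_pow]
  have h5 : N ∣ n * 2 := by rw [← hN]; exact orderOf_dvd_of_pow_eq_one h4
  have h6 : Nat.Coprime N 2 := by
    rw [Nat.coprime_comm]
    exact (Nat.Prime.coprime_iff_not_dvd Nat.prime_two).2 hodd
  have h7 : N ∣ n := h6.dvd_of_dvd_mul_right h5
  have := Nat.le_of_dvd h1 h7
  omega

theorem uu_inj {z : E} (hz : z ≠ 0) (hz2 : z ^ 2 ≠ 1) {m n : ℕ}
    (hm : m < orderOf z) (hn : n < orderOf z)
    (h : uu z (m + 1) * uu z n = uu z (n + 1) * uu z m) : m = n := by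
  have ha : z ^ m ≠ 0 := pow_ne_zero _ hz
  have hb : z ^ n ≠ 0 := pow_ne_zero _ hz
  have key : (z - z⁻¹) * (z ^ m * (z⁻¹) ^ n - z ^ n * (z⁻¹) ^ m) = 0 := by
    simp only [uu, pow_succ] at h
    linear_combination h
  have h1 : z - z⁻¹ ≠ 0 := by
    intro h'
    apply hz2
    have : z = z⁻¹ := sub_eq_zero.1 h'
    rw [pow_two]
    nth_rewrite 2 [this]
    exact mul_inv_cancel₀ hz
  have h2 : z ^ m * (z⁻¹) ^ n = z ^ n * (z⁻¹) ^ m := by
    rcases mul_eq_zero.1 key with h' | h'
    · exact absurd h' h1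
    · exact sub_eq_zero.1 h'
  have h3 : (z ^ m) ^ 2 = (z ^ n) ^ 2 := by
    rw [inv_pow, inv_pow] at h2
    field_simp at h2
    linear_combination h2
  have h4 : z ^ m = z ^ n := CharTwo.sq_injective h3
  exact pow_injOn_Iio_orderOf hm hn h4

end

section
variable (F : Type) [Field F] [Fintype F] [DecidableEq F] [CharP F 2]

theorem exists_zeta (hq : 4 ≤ Fintype.card F) :
    ∃ (E : Type) (_ : Field E) (_ : CharP E 2) (_ : Algebra F E) (z : E) (γ : F),
      z ≠ 0 ∧ orderOf z = Fintype.card F + 1 ∧ algebraMap F E γ = z + z⁻¹ := by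
  have : Fact (Nat.Prime 2) := ⟨Nat.prime_two⟩
  have hE : CharP (FiniteField.Extension F 2 2) 2 :=
    charP_of_injective_algebraMap (algebraMap F (FiniteField.Extension F 2 2)).injective 2
  refine ⟨FiniteField.Extension F 2 2, inferInstance, hE, inferInstance, ?_⟩
  set q := Fintype.card F with hqdef
  have hcE : Nat.card (FiniteField.Extension F 2 2) = q ^ 2 := by
    rw [FiniteField.natCard_extension, Nat.card_eq_fintype_card]
  obtain ⟨g, hg⟩ := IsCyclic.exists_generator (α := (FiniteField.Extension F 2 2)ˣ)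
  have hog : orderOf g = (q - 1) * (q + 1) := by
    rw [orderOf_eq_card_of_forall_mem_zpowers hg, Nat.card_units, hcE]
    have : 1 ≤ q := by omega
    zify [this, Nat.one_le_pow 2 q (by omega)]
    ring
  have hz : orderOf (g ^ (q - 1)) = q + 1 := by
    rw [orderOf_pow_of_dvd (by omega) (by rw [hog]; exact dvd_mul_right _ _), hog,
      Nat.mul_div_cancel_left _ (by omega)]
  set z : (FiniteField.Extension F 2 2)ˣ := g ^ (q - 1) with hzdef
  have hz1 : z ^ (q + 1) = 1 := by rw [← hz]; exact pow_orderOf_eq_one z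
  have hzq : z ^ q = z⁻¹ := by
    rw [pow_succ] at hz1
    exact eq_inv_of_mul_eq_one_left hz1
  have hfix : ((z : FiniteField.Extension F 2 2) + (z : FiniteField.Extension F 2 2)⁻¹) ∈
      Set.range (algebraMap F (FiniteField.Extension F 2 2)) := by
    rw [IsGalois.mem_range_algebraMap_iff_fixed]
    intro f
    obtain ⟨i, hi, rfl⟩ := FiniteField.Extension.exists_frob_pow_eq F 2 2 f
    have hfrob : FiniteField.Extension.frob F 2 2
        ((z : FiniteField.Extension F 2 2) + (z : FiniteField.Extension F 2 2)⁻¹) =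
        (z : FiniteField.Extension F 2 2) + (z : FiniteField.Extension F 2 2)⁻¹ := by
      have e1 : FiniteField.Extension.frob F 2 2 (z : FiniteField.Extension F 2 2) =
          (z : FiniteField.Extension F 2 2)⁻¹ := by
        rw [FiniteField.Extension.frob_apply, Nat.card_eq_fintype_card, ← hqdef]
        have := congrArg (Units.val) hzq
        simpa using this
      rw [map_add, map_inv₀, e1, inv_inv, add_comm]
    interval_cases i
    · simp
    · simpa using hfrob
  obtain ⟨γ, hγ⟩ := hfix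
  refine ⟨(z : FiniteField.Extension F 2 2), γ, z.ne_zero, ?_, hγ⟩
  rw [orderOf_units, hz]

theorem two_dvd_card' : 2 ∣ Fintype.card F := by
  have : Fact (Nat.Prime 2) := ⟨Nat.prime_two⟩
  obtain ⟨n, _, h2⟩ := FiniteField.card F 2
  rw [h2]
  exact dvd_pow_self 2 n.ne_zero

theorem exists_gamma (hq : 4 ≤ Fintype.card F) :
    ∃ γ : F, γ ≠ 0 ∧ γ ≠ 1 ∧ ∀ t : F, t ≠ 0 → ∃ n, rr γ n = t ∧ ∀ j, j ≤ n → rr γ j ≠ 0 := by
  obtain ⟨E, _, _, _, z, γ, hz0, hz, hγ⟩ := exists_zeta F hq
  set q := Fintype.card F with hqdef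
  have hinj := (algebraMap F E).injective
  have hodd : ¬ 2 ∣ q + 1 := by
    have := two_dvd_card' F
    omega
  have hz2 : z ^ 2 ≠ 1 := by
    intro h
    have := Nat.le_of_dvd (by norm_num) (orderOf_dvd_of_pow_eq_one h)
    omega
  have hu : ∀ n, 0 < n → n < q + 1 → uu z n ≠ 0 := fun n h1 h2 => uu_ne hz0 hz hodd h1 h2
  have hu1 : uu z 1 = z + z⁻¹ := by simp [uu]
  have hmap : ∀ j, j + 1 < q + 1 → algebraMap F E (rr γ j) = uu z (j + 2) / uu z (j + 1) := by
    intro j
    induction j with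
    | zero =>
      intro _
      have h1 := hu 1 (by norm_num) (by omega)
      rw [rr, hγ, ← hu1, uu_rec hz0 0, uu_zero, zero_add, add_zero]
      field_simp
    | succ j ih =>
      intro hj
      have h1 := hu (j + 1) (by omega) (by omega)
      have h2 := hu (j + 2) (by omega) (by omega)
      rw [rr, map_add, map_inv₀, ih (by omega), hγ, ← hu1, uu_rec hz0 (j + 1)]
      have : j + 1 + 1 = j + 2 := rfl
      rw [this]
      field_simp
      ring
  have hne : ∀ j, j < q - 1 → rr γ j ≠ 0 := by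
    intro j hj h
    have := hmap j (by omega)
    rw [h, map_zero] at this
    have h2 := hu (j + 2) (by omega) (by omega)
    have h1 := hu (j + 1) (by omega) (by omega)
    exact (div_ne_zero h2 h1) this.symm
  have hinj2 : ∀ i j, i < q - 1 → j < q - 1 → rr γ i = rr γ j → i = j := by
    intro i j hi hj h
    have e1 := hmap i (by omega)
    have e2 := hmap j (by omega)
    rw [h, e2] at e1
    have h1 := hu (i + 1) (by omega) (by omega)
    have h2 := hu (j + 1) (by omega) (by omega)
    rw [div_eq_div_iff h2 h1] at e1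
    have := uu_inj hz0 hz2 (m := i + 1) (n := j + 1) (by omega) (by omega) e1.symm
    omega
  have hsurj : ∀ t : F, t ≠ 0 → ∃ n, n < q - 1 ∧ rr γ n = t := by
    let f : Fin (q - 1) → Fˣ := fun j => Units.mk0 (rr γ j) (hne j j.2)
    have hf : Function.Injective f := by
      intro i j hij
      have : rr γ i = rr γ j := congrArg Units.val hij
      exact Fin.ext (hinj2 i j i.2 j.2 this)
    have hb : Function.Bijective f := by
      rw [Fintype.bijective_iff_injective_and_card]
      refine ⟨hf, ?_⟩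
      rw [Fintype.card_fin, Fintype.card_units]
    intro t ht
    obtain ⟨j, hj⟩ := hb.2 (Units.mk0 t ht)
    exact ⟨j, j.2, congrArg Units.val hj⟩
  refine ⟨γ, ?_, ?_, ?_⟩
  · have := hne 0 (by omega)
    simpa [rr] using this
  · intro h1
    rw [h1, map_one] at hγ
    have h3 : z ^ 3 = 1 := by
      have e : z ^ 2 + z + 1 = 0 := by
        have : z * (z + z⁻¹) = z := by rw [← hγ, mul_one]
        rw [mul_add, mul_inv_cancel₀ hz0] at this
        have h2 : z ^ 2 + z + 1 = (z * z + 1) + z := by ring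
        rw [h2, this, CharTwo.add_self_eq_zero]
      linear_combination (z - 1) * e
    have := Nat.le_of_dvd (by norm_num) (orderOf_dvd_of_pow_eq_one h3)
    omega
  · intro t ht
    obtain ⟨n, hn, hnt⟩ := hsurj t ht
    exact ⟨n, hnt, fun j hj => hne j (by omega)⟩

theorem gen_of_prime (hp : (Fintype.card F - 1).Prime) {g : F} (hg0 : g ≠ 0) (hg1 : g ≠ 1) {v : F}
    (hv : v ≠ 0) : ∃ n : ℕ, v = g ^ n := by
  have : Fact (Fintype.card F - 1).Prime := ⟨hp⟩
  have hc : Nat.card Fˣ = Fintype.card F - 1 := by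
    rw [Nat.card_eq_fintype_card, Fintype.card_units]
  have hg : Units.mk0 g hg0 ≠ 1 := by
    intro h
    exact hg1 (congrArg Units.val h)
  have := mem_powers_of_prime_card hc hg (g' := Units.mk0 v hv)
  obtain ⟨n, hn⟩ := this
  refine ⟨n, ?_⟩
  have := congrArg Units.val hn
  simpa using this.symm

end

end H37M
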