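import Mathlib

/-!
The Lucas-Lehmer test, arranged so that the kernel evaluates it quickly.
-/

namespace H37M

/-- evaluate `x` first -/
def force (x : ℕ) (k : ℕ → ℕ) : ℕ := Nat.rec (k 0) (fun n _ => k (Nat.succ n)) x

theorem force_eq (x : ℕ) (k : ℕ → ℕ) : force x k = k x := by cases x <;> rfl

/-- one step of the test -/
def stp (M s : ℕ) : ℕ := Nat.mod (Nat.add (Nat.mul s s) (Nat.sub M 2)) M

/-- `2 ^ j` steps of the test -/
def pw (M j : ℕ) : ℕ → ℕ :=
  Nat.rec (motive := fun _ => ℕ → ℕ) (fun s => stp M s) (fun _ f s => force (f s) f) j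

/-- several runs -/
def run (M : ℕ) (l : List ℕ) : ℕ → ℕ :=
  List.rec (motive := fun _ => ℕ → ℕ) (fun s => s) (fun j _ f s => force (pw M j s) f) l

theorem pw_eq (M j : ℕ) (s : ℕ) : pw M j s = (stp M)^[2 ^ j] s := by
  induction j generalizing s with
  | zero => rfl
  | succ j ih =>
    change force (pw M j s) (pw M j) = _
    rw [force_eq, ih, ih, ← Function.iterate_add_apply]
    congr 1
    rw [pow_succ]; ring

theorem run_eq (M : ℕ) (l : List ℕ) (s : ℕ) :
    run M l s = (stp M)^[(l.map (fun j => 2 ^ j)).sum] s := by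
  induction l generalizing s with
  | nil => rfl
  | cons j l ih =>
    change force (pw M j s) (run M l) = _
    rw [force_eq, ih, pw_eq, ← Function.iterate_add_apply]
    congr 1
    rw [List.map_cons, List.sum_cons, add_comm]

theorem cast_stp {p : ℕ} (hp : 2 ≤ p) (s : ℕ) :
    ((stp (2 ^ p - 1) s : ℕ) : ZMod (2 ^ p - 1)) = (s : ZMod (2 ^ p - 1)) ^ 2 - 2 := by
  have h4 : 4 ≤ 2 ^ p := by
    calc 4 = 2 ^ 2 := by norm_num
      _ ≤ 2 ^ p := Nat.pow_le_pow_right (by norm_num) hp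
  change (((s * s + (2 ^ p - 1 - 2)) % (2 ^ p - 1) : ℕ) : ZMod (2 ^ p - 1)) = _
  rw [ZMod.natCast_mod, Nat.cast_add, Nat.cast_mul, Nat.cast_sub (by omega), ZMod.natCast_self]
  push_cast
  ring

theorem cast_iter {p : ℕ} (hp : 2 ≤ p) (i : ℕ) :
    (((stp (2 ^ p - 1))^[i] 4 : ℕ) : ZMod (2 ^ p - 1)) = LucasLehmer.sZMod p i := by
  induction i with
  | zero => simp [LucasLehmer.sZMod]
  | succ i ih =>
    rw [Function.iterate_succ_apply', cast_stp hp, ih]
    rfl

theorem mersenne_prime_of_run {p : ℕ} (hp : 2 ≤ p) (l : List ℕ)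
    (hl : (l.map (fun j => 2 ^ j)).sum = p - 2)
    (h : force (2 ^ p - 1) (fun M => run M l 4) = 0) : (mersenne p).Prime := by
  apply lucas_lehmer_sufficiency p (by omega)
  change LucasLehmer.lucasLehmerResidue p = 0
  rw [force_eq, run_eq, hl] at h
  rw [LucasLehmer.lucasLehmerResidue, ← cast_iter hp, h, Nat.cast_zero]

end H37M
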