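import Mathlib
import Pool.Agent.Lib.H37M.LL

/-!
`2 ^ 21701 - 1` is prime.
-/

namespace H37M

theorem mersenne_21701 : (mersenne 21701).Prime := by
  refine mersenne_prime_of_run (by norm_num) [14, 12, 10, 7, 6, 1, 0]
    (by norm_num) ?_
  decide +kernel

end H37M
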