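import Mathlib
import Pool.Agent.Lib.H37M.Dbl
import Pool.Agent.Lib.H37M.Fld

/-!
Connectedness of the links of all pairs for the white system `T false 1` and the black system
`conj tau (T true (γ ^ 2))`.
-/

namespace H37M

set_option linter.unusedSectionVars false

section
variable {F : Type} [Field F] [Fintype F] [DecidableEq F] [CharP F 2]

/-- scaling the layers -/
def MM (α β : F) (hα : α ≠ 0) (hβ : β ≠ 0) : (F × Bool) ≃ (F × Bool) where
  toFun p := ((if p.2 then β else α) * p.1, p.2)
  invFun p := ((if p.2 then β else α)⁻¹ * p.1, p.2)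
  left_inv := by
    rintro ⟨x, (_ | _)⟩ <;> simp [hα, hβ]
  right_inv := by
    rintro ⟨x, (_ | _)⟩ <;> simp [hα, hβ]

/-- inversion of both layers -/
def II : (F × Bool) ≃ (F × Bool) where
  toFun p := (p.1⁻¹, p.2)
  invFun p := (p.1⁻¹, p.2)
  left_inv := by rintro ⟨x, e⟩; simp
  right_inv := by rintro ⟨x, e⟩; simp

/-- the flip of the layers -/
def FF : (F × Bool) ≃ (F × Bool) where
  toFun p := (p.1, !p.2)
  invFun p := (p.1, !p.2)
  left_inv := by rintro ⟨x, e⟩; simp
  right_inv := by rintro ⟨x, e⟩; simp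

theorem MM_f (α β : F) (hα : α ≠ 0) (hβ : β ≠ 0) (x : F) :
    MM α β hα hβ (x, false) = (α * x, false) := by simp [MM]

theorem MM_t (α β : F) (hα : α ≠ 0) (hβ : β ≠ 0) (x : F) :
    MM α β hα hβ (x, true) = (β * x, true) := by simp [MM]

theorem II_a (x : F) (e : Bool) : II (x, e) = (x⁻¹, e) := rfl

theorem FF_a (x : F) (e : Bool) : FF (x, e) = (x, !e) := rfl

theorem T_MM (e : Bool) (l : F) {α β : F} (hα : α ≠ 0) (hβ : β ≠ 0) (p1 p2 p3 : F × Bool) :
    MM α β hα hβ (T e l p1 p2 p3) =
      T e (l * (β ^ 2 / α ^ 2)) (MM α β hα hβ p1) (MM α β hα hβ p2) (MM α β hα hβ p3) := by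
  have e1 : ∀ u : F, l * (β ^ 2 / α ^ 2) * (α ^ 2 * u) = β ^ 2 * (l * u) := by
    intro u; field_simp
  have e2 : ∀ u : F, (l * (β ^ 2 / α ^ 2))⁻¹ * (β ^ 2 * u) = α ^ 2 * (l⁻¹ * u) := by
    intro u; rw [mul_inv, inv_div]; field_simp
  obtain ⟨x, (_ | _)⟩ := p1 <;> obtain ⟨y, (_ | _)⟩ := p2 <;> obtain ⟨z, (_ | _)⟩ := p3 <;>
    simp only [MM_f, MM_t, T, L_scale hα, L_scale hβ, S_scale, e1, e2, D_scale hα, D_scale hβ]

theorem T_II (e : Bool) (l : F) (p1 p2 p3 : F × Bool) :
    II (T e l p1 p2 p3) = T (!e) l⁻¹ (II p1) (II p2) (II p3) := by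
  obtain ⟨x, (_ | _)⟩ := p1 <;> obtain ⟨y, (_ | _)⟩ := p2 <;> obtain ⟨z, (_ | _)⟩ := p3 <;>
    simp only [II_a, T, L_inv, S_not, ← mul_inv, D_inv]

theorem T_FF (e : Bool) (l : F) (p1 p2 p3 : F × Bool) :
    FF (T e l p1 p2 p3) = T (!e) l⁻¹ (FF p1) (FF p2) (FF p3) := by
  obtain ⟨x, (_ | _)⟩ := p1 <;> obtain ⟨y, (_ | _)⟩ := p2 <;> obtain ⟨z, (_ | _)⟩ := p3 <;>
    simp only [FF_a, T, Bool.not_false, Bool.not_true, Bool.not_not, inv_inv]

theorem tau_MM {α β : F} (hα : α ≠ 0) (hβ : β ≠ 0) (p : F × Bool) :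
    MM α β hα hβ (tau p) = tau (MM α β hα hβ p) := by
  obtain ⟨x, e⟩ := p
  by_cases hx : x = 0
  · subst hx
    cases e <;> simp [MM_f, MM_t]
  · cases e
    · rw [tau_ne hx, MM_f, tau_ne (mul_ne_zero hα hx)]
    · rw [tau_ne hx, MM_t, tau_ne (mul_ne_zero hβ hx)]

theorem tau_II (p : F × Bool) : II (tau p) = tau (II p) := by
  obtain ⟨x, e⟩ := p
  by_cases hx : x = 0
  · subst hx
    simp [II_a]
  · rw [tau_ne hx, II_a, tau_ne (inv_ne_zero hx)]

theorem tau_FF (p : F × Bool) : FF (tau p) = tau (FF p) := by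
  obtain ⟨x, e⟩ := p
  by_cases hx : x = 0
  · subst hx
    simp [FF_a]
  · rw [tau_ne hx, FF_a, tau_ne hx]

theorem tau_symm (p : F × Bool) : tau.symm p = tau p := rfl

theorem conj_a (w : F × Bool → F × Bool → F × Bool → F × Bool) (a b c : F × Bool) :
    conj tau w a b c = tau (w (tau a) (tau b) (tau c)) := rfl

theorem conj_comm {w w' : F × Bool → F × Bool → F × Bool → F × Bool}
    (φ : (F × Bool) ≃ (F × Bool)) (hφ : ∀ p, φ (tau p) = tau (φ p))
    (h : ∀ a b c, φ (w a b c) = w' (φ a) (φ b) (φ c)) (a b c : F × Bool) :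
    φ (conj tau w a b c) = conj tau w' (φ a) (φ b) (φ c) := by
  rw [conj_a, conj_a, hφ, h, hφ, hφ, hφ]

/-- the white system -/
def WW : F × Bool → F × Bool → F × Bool → F × Bool := T false 1

/-- the black system -/
def BB (γ : F) : F × Bool → F × Bool → F × Bool → F × Bool := conj tau (T true (γ ^ 2))

theorem SQ_W : SQ (WW : F × Bool → F × Bool → F × Bool → F × Bool) := SQ_T false one_ne_zero

theorem SQ_B {γ : F} (hγ : γ ≠ 0) : SQ (BB γ) := SQ_conj tau (SQ_T true (pow_ne_zero 2 hγ))

/-- the first symmetry: scaling -/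
theorem sym_scale {γ : F} {c : F} (hc : c ≠ 0) {p p' : F × Bool} (h : Cn WW (BB γ) p p') :
    Cn WW (BB γ) (MM c c hc hc p) (MM c c hc hc p') := by
  have e : ∀ l : F, l * (c ^ 2 / c ^ 2) = l := by
    intro l; field_simp
  refine Cn.transport (MM c c hc hc) ?_ ?_ h
  · intro x y z
    have := T_MM false 1 hc hc x y z
    rw [e] at this
    exact this
  · refine conj_comm _ (tau_MM hc hc) ?_
    intro x y z
    have := T_MM true (γ ^ 2) hc hc x y z
    rw [e] at this
    exact this

/-- the second symmetry: inversion and flip -/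
theorem sym_flip {γ : F} {p p' : F × Bool} (h : Cn WW (BB γ) p p') :
    Cn WW (BB γ) (FF (II p)) (FF (II p')) := by
  have key : ∀ (e : Bool) (l : F) (a b c : F × Bool),
      FF (II (T e l a b c)) = T e l (FF (II a)) (FF (II b)) (FF (II c)) := by
    intro e l a b c
    rw [T_II, T_FF, Bool.not_not, inv_inv]
  refine Cn.transport (II.trans FF) ?_ ?_ h
  · intro x y z
    exact key false 1 x y z
  · refine conj_comm _ ?_ ?_
    · intro p
      change FF (II (tau p)) = tau (FF (II p))
      rw [tau_II, tau_FF]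
    · intro x y z
      exact key true (γ ^ 2) x y z

/-- the third symmetry: it swaps the colours -/
theorem sym_swap {γ : F} (hγ : γ ≠ 0) {p p' : F × Bool} (h : Cn WW (BB γ) p p') :
    Cn WW (BB γ) (tau (MM 1 γ one_ne_zero hγ (II p))) (tau (MM 1 γ one_ne_zero hγ (II p'))) := by
  have key : ∀ (e : Bool) (l : F) (a b c : F × Bool),
      MM 1 γ one_ne_zero hγ (II (T e l a b c)) =
        T (!e) (l⁻¹ * γ ^ 2) (MM 1 γ one_ne_zero hγ (II a)) (MM 1 γ one_ne_zero hγ (II b))
          (MM 1 γ one_ne_zero hγ (II c)) := by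
    intro e l a b c
    rw [T_II, T_MM]
    simp
  apply Cn.swap
  refine Cn.transport ((II.trans (MM 1 γ one_ne_zero hγ)).trans tau) ?_ ?_ h
  · intro x y z
    change tau (MM 1 γ one_ne_zero hγ (II (T false 1 x y z))) = _
    rw [key]
    change _ = tau (T true (γ ^ 2) (tau (tau _)) (tau (tau _)) (tau (tau _)))
    rw [tau_tau, tau_tau, tau_tau, inv_one, one_mul]
    rfl
  · intro x y z
    have hg : (γ ^ 2)⁻¹ * γ ^ 2 = 1 := inv_mul_cancel₀ (pow_ne_zero 2 hγ)
    change tau (MM 1 γ one_ne_zero hγ (II (tau (T true (γ ^ 2) (tau x) (tau y) (tau z))))) = _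
    rw [tau_II, tau_MM, tau_tau, key, hg]
    change _ = T false 1 (tau (MM 1 γ one_ne_zero hγ (II x))) (tau (MM 1 γ one_ne_zero hγ (II y)))
      (tau (MM 1 γ one_ne_zero hγ (II z)))
    rw [tau_II, tau_II, tau_II, tau_MM, tau_MM, tau_MM]
    rfl

/-- walking along the powers of a generator -/
theorem walk {V : Type} {w b : V → V → V → V} (hw : SQ w) (hb : SQ b) {p p' : V} (hp : p ≠ p')
    (hgen : ∀ g v : F, g ≠ 0 → g ≠ 1 → v ≠ 0 → ∃ n : ℕ, v = g ^ n) (f : F → V) {g : F}
    (hg0 : g ≠ 0) (hg1 : g ≠ 1) (h : ∀ v, v ≠ 0 → Reach w b p p' (f v) (f (g * v)))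
    (u v : F) (hu : u ≠ 0) (hv : v ≠ 0) : Reach w b p p' (f u) (f v) := by
  have key : ∀ n : ℕ, Reach w b p p' (f 1) (f (g ^ n)) := by
    intro n
    induction n with
    | zero => simpa using Reach.refl
    | succ n ih =>
      rw [pow_succ']
      exact ih.trans (h _ (pow_ne_zero n hg0))
  obtain ⟨n, rfl⟩ := hgen g u hg0 hg1 hu
  obtain ⟨m, rfl⟩ := hgen g v hg0 hg1 hv
  exact ((key n).symm hw hb hp).trans (key m)

/-- the pair of the two special points -/
theorem typeZ {γ : F} (hγ0 : γ ≠ 0) (hγ1 : γ ≠ 1)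
    (hgen : ∀ g v : F, g ≠ 0 → g ≠ 1 → v ≠ 0 → ∃ n : ℕ, v = g ^ n) :
    Cn WW (BB γ) ((0 : F), false) (0, true) := by
  have hw : SQ (WW : F × Bool → F × Bool → F × Bool → F × Bool) := SQ_W
  have hb := SQ_B hγ0
  have hp : ((0 : F), false) ≠ (0, true) := by simp
  have hW : ∀ x : F, WW ((0 : F), false) (0, true) (x, false) = (x, true) := by
    intro x
    change (D 0 (1 * L 0 x), true) = _
    simp [L, D, rt_of_sq]
  have hB : ∀ x : F, x ≠ 0 → BB γ ((0 : F), false) (0, true) (x, false) = (γ * x, true) := by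
    intro x hx
    change tau (T true (γ ^ 2) (tau (0, false)) (tau (0, true)) (tau (x, false))) = _
    rw [tau_zero, tau_zero, tau_ne hx]
    change tau (D 0 (γ ^ 2 * L 0 x), true) = _
    simp only [L, D, if_true]
    rw [rt_mul, rt_of_sq, rt_of_sq, tau_ne (mul_ne_zero hγ0 hx)]
  have h1 : ∀ x : F, x ≠ 0 → Reach WW (BB γ) ((0 : F), false) (0, true) (x, false) (x, true) := by
    intro x hx
    have := Reach.white (w := WW) (b := BB γ) (p := ((0 : F), false)) (p' := (0, true))
      (x := (x, false)) (by simpa using hx) (by simp)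
    rwa [hW] at this
  have h2 : ∀ x : F, x ≠ 0 → Reach WW (BB γ) ((0 : F), false) (0, true) (x, true) (γ * x, true) := by
    intro x hx
    have := Reach.black (w := WW) (b := BB γ) (p := ((0 : F), false)) (p' := (0, true))
      (x := (x, false)) (by simpa using hx) (by simp)
    rw [hB x hx] at this
    exact ((h1 x hx).symm hw hb hp).trans this
  have h3 := walk hw hb hp hgen (fun v => (v, true)) hγ0 hγ1 h2
  refine Cn.of_base hw hb hp ((1 : F), true) ?_
  rintro ⟨x, e⟩ hx1 hx2
  cases e
  · have hx : x ≠ 0 := by simpa using hx1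
    exact (h1 x hx).trans (h3 x 1 hx one_ne_zero)
  · have hx : x ≠ 0 := by simpa using hx2
    exact h3 x 1 hx one_ne_zero

/-- the pair of a special point and an ordinary point -/
theorem typeQ {γ : F} (hγ0 : γ ≠ 0) (hγ1 : γ ≠ 1)
    (hcyc : ∀ t : F, t ≠ 0 → ∃ n, rr γ n = t ∧ ∀ j, j ≤ n → rr γ j ≠ 0) :
    Cn WW (BB γ) ((1 : F), false) (0, false) := by
  have hw : SQ (WW : F × Bool → F × Bool → F × Bool → F × Bool) := SQ_W
  have hb := SQ_B hγ0
  have hp : ((1 : F), false) ≠ (0, false) := by simp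
  have hW1 : ∀ x : F, WW ((1 : F), false) (0, false) (x, false) = (x + 1, false) := by
    intro x
    change (S false 1 0 x, false) = _
    simp [S, add_comm]
  have hL : L (1 : F) 0 = 1 := by simp [L]
  have hW2 : ∀ y : F, y ≠ 0 → y ≠ 1 → WW ((1 : F), false) (0, false) (y, true) = (y⁻¹, true) := by
    intro y hy hy1
    change (D y (1 * L 1 0), true) = _
    have : ¬ (1 : F) = y ^ 2 := by
      intro h
      apply hy1
      have : (1 : F) ^ 2 = y ^ 2 := by rw [one_pow]; exact h
      exact (CharTwo.sq_injective this).symm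
    rw [hL, one_mul, D, if_neg hy, if_neg this, one_div]
  have hB1 : ∀ x : F, x ≠ 0 →
      BB γ ((1 : F), false) (0, false) (x, false) = (γ * rt x, true) := by
    intro x hx
    change tau (T true (γ ^ 2) (tau (1, false)) (tau (0, false)) (tau (x, false))) = _
    rw [tau_zero, tau_ne one_ne_zero, tau_ne hx]
    change tau (D 0 (γ ^ 2 * L 1 x), true) = _
    simp only [L, D, if_true, one_ne_zero, if_false, hx, one_mul]
    rw [rt_mul, rt_of_sq, tau_ne (mul_ne_zero hγ0 (rt_ne_zero hx))]
  have hB2 : BB γ ((1 : F), false) (0, false) (0, true) = (γ, true) := by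
    change tau (T true (γ ^ 2) (tau (1, false)) (tau (0, false)) (tau (0, true))) = _
    rw [tau_zero, tau_ne one_ne_zero, tau_zero]
    change tau (D 0 (γ ^ 2 * L 1 0), true) = _
    rw [hL, mul_one]
    simp only [D, if_true]
    rw [rt_of_sq, tau_ne hγ0]
  -- the two elementary moves
  have m1 : ∀ d : F, d ≠ 0 → Reach WW (BB γ) ((1 : F), false) (0, false) (d, true) (d⁻¹, true) := by
    intro d hd
    by_cases h : d = 1
    · rw [h, inv_one]; exact Reach.refl
    · have := Reach.white (w := WW) (b := BB γ) (p := ((1 : F), false)) (p' := (0, false))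
        (x := (d, true)) (by simp) (by simp)
      rwa [hW2 d hd h] at this
  have m2 : ∀ d : F, d ≠ 0 → d ≠ γ →
      Reach WW (BB γ) ((1 : F), false) (0, false) ((γ⁻¹ * d) ^ 2, false) (d, true) := by
    intro d hd hdg
    have h0 : (γ⁻¹ * d) ^ 2 ≠ 0 := pow_ne_zero 2 (mul_ne_zero (inv_ne_zero hγ0) hd)
    have h1 : (γ⁻¹ * d) ^ 2 ≠ 1 := by
      intro h
      apply hdg
      have : (γ⁻¹ * d) ^ 2 = 1 ^ 2 := by rw [one_pow]; exact h
      have h' := CharTwo.sq_injective this
      change γ⁻¹ * d = 1 at h'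
      rw [inv_mul_eq_iff_eq_mul₀ hγ0, mul_one] at h'
      exact h'
    have := Reach.black (w := WW) (b := BB γ) (p := ((1 : F), false)) (p' := (0, false))
      (x := ((γ⁻¹ * d) ^ 2, false)) (by simpa using h1) (by simpa using h0)
    rw [hB1 _ h0, rt_of_sq, mul_inv_cancel_left₀ hγ0] at this
    exact this
  have m3 : ∀ d : F, d ≠ 0 → d ≠ γ →
      Reach WW (BB γ) ((1 : F), false) (0, false) (d, true) (d + γ, true) := by
    intro d hd hdg
    have e1 := m2 d hd hdg
    have hd' : d + γ ≠ 0 := by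
      intro h
      exact hdg ((CharTwo.add_eq_zero).1 h)
    have hdg' : d + γ ≠ γ := by
      intro h
      apply hd
      simpa using h
    have e2 := m2 (d + γ) hd' hdg'
    have h0 : (γ⁻¹ * d) ^ 2 ≠ 0 := pow_ne_zero 2 (mul_ne_zero (inv_ne_zero hγ0) hd)
    have h1 : (γ⁻¹ * d) ^ 2 ≠ 1 := by
      intro h
      apply hdg
      have : (γ⁻¹ * d) ^ 2 = 1 ^ 2 := by rw [one_pow]; exact h
      have h' := CharTwo.sq_injective this
      change γ⁻¹ * d = 1 at h'
      rw [inv_mul_eq_iff_eq_mul₀ hγ0, mul_one] at h'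
      exact h'
    have e3 := Reach.white (w := WW) (b := BB γ) (p := ((1 : F), false)) (p' := (0, false))
      (x := ((γ⁻¹ * d) ^ 2, false)) (by simpa using h1) (by simpa using h0)
    rw [hW1] at e3
    have e4 : (γ⁻¹ * d) ^ 2 + 1 = (γ⁻¹ * (d + γ)) ^ 2 := by
      rw [mul_add, inv_mul_cancel₀ hγ0, CharTwo.add_sq, one_pow]
    rw [e4] at e3
    exact ((e1.symm hw hb hp).trans e3).trans e2
  have m4 : ∀ n : ℕ, (∀ j, j ≤ n → rr γ j ≠ 0) →
      Reach WW (BB γ) ((1 : F), false) (0, false) (γ, true) (rr γ n, true) := by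
    intro n
    induction n with
    | zero => intro _; simpa [rr] using Reach.refl
    | succ n ih =>
      intro h
      have h1 := ih (fun j hj => h j (by omega))
      have h2 := h n (by omega)
      have h3 := h (n + 1) le_rfl
      have h4 := m1 _ h2
      have h5 : (rr γ n)⁻¹ ≠ γ := by
        intro h'
        apply h3
        rw [rr, h', CharTwo.add_self_eq_zero]
      have h6 := m3 _ (inv_ne_zero h2) h5
      exact (h1.trans h4).trans h6
  have m5 : ∀ t : F, t ≠ 0 →
      Reach WW (BB γ) ((1 : F), false) (0, false) (t, true) (γ, true) := by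
    intro t ht
    obtain ⟨n, hn, hj⟩ := hcyc t ht
    have := m4 n hj
    rw [hn] at this
    exact this.symm hw hb hp
  refine Cn.of_base hw hb hp (γ, true) ?_
  rintro ⟨x, e⟩ hx1 hx2
  cases e
  · have h1 : x ≠ 1 := by simpa using hx1
    have h0 : x ≠ 0 := by simpa using hx2
    have := Reach.black (w := WW) (b := BB γ) (p := ((1 : F), false)) (p' := (0, false))
      (x := (x, false)) hx1 hx2
    rw [hB1 x h0] at this
    exact this.trans (m5 _ (mul_ne_zero hγ0 (rt_ne_zero h0)))
  · by_cases hx : x = 0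
    · subst hx
      have := Reach.black (w := WW) (b := BB γ) (p := ((1 : F), false)) (p' := (0, false))
        (x := (0, true)) hx1 hx2
      rwa [hB2] at this
    · exact m5 x hx

/-- a pair of ordinary points in different layers -/
theorem typeC {γ : F} (hγ0 : γ ≠ 0) (hγ1 : γ ≠ 1)
    (hgen : ∀ g v : F, g ≠ 0 → g ≠ 1 → v ≠ 0 → ∃ n : ℕ, v = g ^ n) {a b : F} (ha : a ≠ 0)
    (hb0 : b ≠ 0) : Cn WW (BB γ) (a, false) (b, true) := by
  have hw : SQ (WW : F × Bool → F × Bool → F × Bool → F × Bool) := SQ_W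
  have hb := SQ_B hγ0
  have hp : (a, false) ≠ (b, true) := by simp
  have hg0 : γ ^ 2 ≠ 0 := pow_ne_zero 2 hγ0
  have hg1 : γ ^ 2 ≠ 1 := by
    intro h
    apply hγ1
    have : γ ^ 2 = 1 ^ 2 := by rw [one_pow]; exact h
    exact CharTwo.sq_injective this
  have hW : ∀ m : F, m ≠ 0 → WW (a, false) (b, true) (D a m, false) = (D b m, true) := by
    intro m hm
    change (D b (1 * L a (D a m)), true) = _
    rw [L_D a hm, one_mul]
  have hB : ∀ m : F, m ≠ 0 →
      BB γ (a, false) (b, true) (tau (D a m, false)) = tau (D b (γ ^ 2 * m), true) := by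
    intro m hm
    change tau (T true (γ ^ 2) (tau (a, false)) (tau (b, true)) (tau (tau (D a m, false)))) = _
    rw [tau_tau, tau_ne ha, tau_ne hb0]
    change tau (D b (γ ^ 2 * L a (D a m)), true) = _
    rw [L_D a hm]
  have nW : ∀ m : F, m ≠ 0 → (D a m, false) ≠ (a, false) := by
    intro m hm h
    exact D_ne a hm (Prod.mk.inj h).1
  have nB1 : ∀ m : F, m ≠ 0 → tau (D a m, false) ≠ (a, false) := by
    intro m hm h
    apply nW m hm
    have h' := congrArg tau h
    rwa [tau_tau, tau_ne ha] at h'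
  have nB2 : ∀ m : F, m ≠ 0 → tau (D a m, false) ≠ (b, true) := by
    intro m hm h
    have h' := congrArg tau h
    rw [tau_tau, tau_ne hb0] at h'
    simp at h'
  have r1 : ∀ m : F, m ≠ 0 →
      Reach WW (BB γ) (a, false) (b, true) (D a m, false) (D b m, true) := by
    intro m hm
    have := Reach.white (w := WW) (b := BB γ) (p := (a, false)) (p' := (b, true))
      (x := (D a m, false)) (nW m hm) (by simp)
    rwa [hW m hm] at this
  have r2 : ∀ m : F, m ≠ 0 →
      Reach WW (BB γ) (a, false) (b, true) (tau (D a m, false)) (tau (D b (γ ^ 2 * m), true)) := by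
    intro m hm
    have := Reach.black (w := WW) (b := BB γ) (p := (a, false)) (p' := (b, true))
      (x := tau (D a m, false)) (nB1 m hm) (nB2 m hm)
    rwa [hB m hm] at this
  have ta : ∀ m : F, m ≠ 0 → m ≠ a ^ 2 → tau (D a m, false) = (D a m, false) := by
    intro m hm h
    apply tau_ne
    rw [D, if_neg ha, if_neg h]
    exact div_ne_zero hm ha
  have tb : ∀ m : F, m ≠ 0 → m ≠ b ^ 2 → tau (D b m, true) = (D b m, true) := by
    intro m hm h
    apply tau_ne
    rw [D, if_neg hb0, if_neg h]
    exact div_ne_zero hm hb0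
  have sa : tau (D a (a ^ 2), false) = (D b (b ^ 2), true) := by
    simp [D, ha, hb0]
  have a2 : a ^ 2 ≠ 0 := pow_ne_zero 2 ha
  have b2 : b ^ 2 ≠ 0 := pow_ne_zero 2 hb0
  -- the walk
  have start : Reach WW (BB γ) (a, false) (b, true) (D b (γ ^ 2 * a ^ 2), true)
      (D b (b ^ 2), true) := by
    by_cases h : γ ^ 2 * a ^ 2 = b ^ 2
    · rw [h]; exact Reach.refl
    · have := r2 (a ^ 2) a2
      rw [sa, tb _ (mul_ne_zero hg0 a2) h] at this
      exact this.symm hw hb hp
  have step : ∀ i : ℕ, i < orderOf (γ ^ 2) →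
      Reach WW (BB γ) (a, false) (b, true) (D b ((γ ^ 2) ^ (i + 1) * a ^ 2), true)
        (D b (b ^ 2), true) := by
    intro i
    induction i with
    | zero => intro _; rw [zero_add, pow_one]; exact start
    | succ i ih =>
      intro hi
      have h1 := ih (by omega)
      set m := (γ ^ 2) ^ (i + 1) * a ^ 2 with hm
      have hm0 : m ≠ 0 := mul_ne_zero (pow_ne_zero _ hg0) a2
      have hma : m ≠ a ^ 2 := by
        intro h
        have : (γ ^ 2) ^ (i + 1) * a ^ 2 = 1 * a ^ 2 := by rw [one_mul]; exact h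
        have := mul_right_cancel₀ a2 this
        exact pow_ne_one_of_lt_orderOf (by omega) hi this
      have hs : (γ ^ 2) ^ (i + 1 + 1) * a ^ 2 = γ ^ 2 * m := by
        rw [hm]; ring
      rw [hs]
      by_cases h : γ ^ 2 * m = b ^ 2
      · rw [h]; exact Reach.refl
      · have := r2 m hm0
        rw [ta m hm0 hma, tb _ (mul_ne_zero hg0 hm0) h] at this
        exact (this.symm hw hb hp).trans ((r1 m hm0).trans h1)
  have hord : 0 < orderOf (γ ^ 2) := by
    rw [orderOf_pos_iff, isOfFinOrder_iff_pow_eq_one]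
    refine ⟨Fintype.card F - 1, ?_, FiniteField.pow_card_sub_one_eq_one _ hg0⟩
    have : 1 < Fintype.card F := Fintype.one_lt_card
    omega
  have all : ∀ m : F, m ≠ 0 →
      Reach WW (BB γ) (a, false) (b, true) (D b m, true) (D b (b ^ 2), true) := by
    intro m hm
    obtain ⟨n, hn⟩ := hgen (γ ^ 2) (m / (γ ^ 2 * a ^ 2)) hg0 hg1
      (div_ne_zero hm (mul_ne_zero hg0 a2))
    rw [← pow_mod_orderOf (γ ^ 2) n] at hn
    have h1 := step (n % orderOf (γ ^ 2)) (Nat.mod_lt _ hord)
    rw [pow_succ, ← hn] at h1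
    have : m / (γ ^ 2 * a ^ 2) * γ ^ 2 * a ^ 2 = m := by
      field_simp
    rwa [this] at h1
  refine Cn.of_base hw hb hp (D b (b ^ 2), true) ?_
  rintro ⟨x, e⟩ hx1 hx2
  cases e
  · have h1 : a ≠ x := by
      intro h; exact hx1 (by rw [h])
    have h2 := L_ne h1
    have h3 := (r1 _ h2).trans (all _ h2)
    rwa [D_L h1] at h3
  · have h1 : b ≠ x := by
      intro h; exact hx2 (by rw [h])
    have h2 := L_ne h1
    have h3 := all _ h2
    rwa [D_L h1] at h3

/-- a pair of ordinary points in the first layer -/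
theorem typeA {γ : F} (hγ0 : γ ≠ 0) (hγ1 : γ ≠ 1)
    (hgen : ∀ g v : F, g ≠ 0 → g ≠ 1 → v ≠ 0 → ∃ n : ℕ, v = g ^ n) {a b : F} (ha : a ≠ 0)
    (hb0 : b ≠ 0) (hab : a ≠ b) : Cn WW (BB γ) (a, false) (b, false) := by
  have hw : SQ (WW : F × Bool → F × Bool → F × Bool → F × Bool) := SQ_W
  have hb := SQ_B hγ0
  have hp : (a, false) ≠ (b, false) := by simpa using hab
  have hg0 : γ ^ 2 ≠ 0 := pow_ne_zero 2 hγ0
  have hg1 : γ ^ 2 ≠ 1 := by
    intro h
    apply hγ1
    have : γ ^ 2 = 1 ^ 2 := by rw [one_pow]; exact h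
    exact CharTwo.sq_injective this
  have hab0 : a + b ≠ 0 := fun h => hab ((CharTwo.add_eq_zero).1 h)
  have hL : L a b = a * b := by simp [L, ha, hb0]
  have hab' : a * b ≠ 0 := mul_ne_zero ha hb0
  -- second layer
  have hW2 : ∀ v : F, WW (a, false) (b, false) (v, true) = (D v (a * b), true) := by
    intro v
    change (D v (1 * L a b), true) = _
    rw [hL, one_mul]
  have hB2 : ∀ v : F, v ≠ 0 →
      BB γ (a, false) (b, false) (v, true) = tau (D v (γ ^ 2 * (a * b)), true) := by
    intro v hv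
    change tau (T true (γ ^ 2) (tau (a, false)) (tau (b, false)) (tau (v, true))) = _
    rw [tau_ne ha, tau_ne hb0, tau_ne hv]
    change tau (D v (γ ^ 2 * L a b), true) = _
    rw [hL]
  have s1 : ∀ v : F, v ≠ 0 →
      Reach WW (BB γ) (a, false) (b, false) (v, true) (a * b / v, true) := by
    intro v hv
    by_cases h : a * b = v ^ 2
    · have : a * b / v = v := by rw [h, pow_two]; field_simp
      rw [this]; exact Reach.refl
    · have := Reach.white (w := WW) (b := BB γ) (p := (a, false)) (p' := (b, false))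
        (x := (v, true)) (by simp) (by simp)
      rw [hW2, D, if_neg hv, if_neg h] at this
      exact this
  have s2 : ∀ v : F, v ≠ 0 →
      Reach WW (BB γ) (a, false) (b, false) (v, true) (γ ^ 2 * (a * b) / v, true) := by
    intro v hv
    by_cases h : γ ^ 2 * (a * b) = v ^ 2
    · have : γ ^ 2 * (a * b) / v = v := by rw [h, pow_two]; field_simp
      rw [this]; exact Reach.refl
    · have := Reach.black (w := WW) (b := BB γ) (p := (a, false)) (p' := (b, false))
        (x := (v, true)) (by simp) (by simp)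
      rw [hB2 v hv, D, if_neg hv, if_neg h,
        tau_ne (div_ne_zero (mul_ne_zero hg0 hab') hv)] at this
      exact this
  have s3 : ∀ v : F, v ≠ 0 →
      Reach WW (BB γ) (a, false) (b, false) (v, true) (γ ^ 2 * v, true) := by
    intro v hv
    have e1 := s1 v hv
    have e2 := s2 (a * b / v) (div_ne_zero hab' hv)
    have e3 : γ ^ 2 * (a * b) / (a * b / v) = γ ^ 2 * v := by field_simp
    rw [e3] at e2
    exact e1.trans e2
  have s4 := walk hw hb hp hgen (fun v => (v, true)) hg0 hg1 s3
  -- the two special points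
  have s5 : Reach WW (BB γ) (a, false) (b, false) (0, true) (1, true) := by
    have := Reach.white (w := WW) (b := BB γ) (p := (a, false)) (p' := (b, false))
        (x := (0, true)) (by simp) (by simp)
    rw [hW2, D, if_pos rfl] at this
    exact this.trans (s4 _ 1 (rt_ne_zero hab') one_ne_zero)
  have s6 : Reach WW (BB γ) (a, false) (b, false) (0, false) (1, true) := by
    have h := Reach.black (w := WW) (b := BB γ) (p := (a, false)) (p' := (b, false))
        (x := (0, false)) (by simpa using ha.symm) (by simpa using hb0.symm)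
    have h2 : BB γ (a, false) (b, false) (0, false) = (rt (γ ^ 2 * (a * b)), true) := by
      change tau (T true (γ ^ 2) (tau (a, false)) (tau (b, false)) (tau (0, false))) = _
      rw [tau_ne ha, tau_ne hb0, tau_zero]
      change tau (D 0 (γ ^ 2 * L a b), true) = _
      rw [hL, D, if_pos rfl, tau_ne (rt_ne_zero (mul_ne_zero hg0 hab'))]
    rw [h2] at h
    exact h.trans (s4 _ 1 (rt_ne_zero (mul_ne_zero hg0 hab')) one_ne_zero)
  -- first layer
  set c := a / b with hc
  have hc0 : c ≠ 0 := div_ne_zero ha hb0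
  have hc1 : c ≠ 1 := by
    intro h
    rw [hc, div_eq_one_iff_eq hb0] at h
    exact hab h
  have hcc0 : c ^ 2 ≠ 0 := pow_ne_zero 2 hc0
  have hcc1 : c ^ 2 ≠ 1 := by
    intro h
    apply hc1
    have : c ^ 2 = 1 ^ 2 := by rw [one_pow]; exact h
    exact CharTwo.sq_injective this
  have one_add : ∀ u : F, u ≠ 1 → 1 + u ≠ 0 := by
    intro u hu h
    exact hu ((CharTwo.add_eq_zero).1 h).symm
  have lin_ne : ∀ u : F, u ≠ c → a + u * b ≠ 0 := by
    intro u hu h
    apply hu
    have := (CharTwo.add_eq_zero).1 h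
    rw [hc, this]
    field_simp
  have xa : ∀ u : F, u ≠ 0 → (a + u * b) / (1 + u) ≠ a := by
    intro u hu h
    by_cases h1 : u = 1
    · rw [h1, CharTwo.add_self_eq_zero, div_zero] at h
      exact ha h.symm
    · rw [div_eq_iff (one_add u h1)] at h
      have : u * (a + b) = 0 := by
        have h' : u * b = a * u := by
          have : a + u * b = a + a * u := by rw [h]; ring
          exact add_left_cancel this
        rw [mul_add, h', mul_comm u a, CharTwo.add_self_eq_zero]
      rcases mul_eq_zero.1 this with h' | h'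
      · exact hu h'
      · exact hab0 h'
  have xb : ∀ u : F, (a + u * b) / (1 + u) ≠ b := by
    intro u h
    by_cases h1 : u = 1
    · rw [h1, CharTwo.add_self_eq_zero, div_zero] at h
      exact hb0 h.symm
    · rw [div_eq_iff (one_add u h1)] at h
      apply hab
      have : a + u * b = b + u * b := by rw [h]; ring
      exact add_right_cancel this
  -- the nodes
  let nd : F → F × Bool := fun u => tau (tau (if u = 1 then (0, true) else
    ((a + u * b) / (1 + u), false)))
  have nd1 : ∀ u : F, u ≠ 1 → nd u = ((a + u * b) / (1 + u), false) := by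
    intro u hu
    simp only [nd, if_neg hu, tau_tau]
  have nd2 : nd 1 = (0, true) := by
    simp only [nd, if_true, tau_tau]
  have nd3 : ∀ u : F, u ≠ c → nd u = tau ((a + u * b) / (1 + u), false) := by
    intro u hu
    by_cases h : u = 1
    · rw [h, nd2, CharTwo.add_self_eq_zero, div_zero, tau_zero]
      rfl
    · rw [nd1 u h, tau_ne (div_ne_zero (lin_ne u hu) (one_add u h))]
  have t1 : ∀ u : F, u ≠ 0 → Reach WW (BB γ) (a, false) (b, false) (nd u) (nd u⁻¹) := by
    intro u hu
    by_cases h : u = 1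
    · rw [h, inv_one]; exact Reach.refl
    · have h' : u⁻¹ ≠ 1 := by
        intro h''
        exact h (inv_eq_one.1 h'')
      have e := Reach.white (w := WW) (b := BB γ) (p := (a, false)) (p' := (b, false))
        (x := ((a + u * b) / (1 + u), false))
        (by simpa using xa u hu) (by simpa using xb u)
      have e2 : WW (a, false) (b, false) ((a + u * b) / (1 + u), false) = nd u⁻¹ := by
        rw [nd1 _ h']
        change (S false a b ((a + u * b) / (1 + u)), false) = _
        have h1 := one_add u h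
        have h2 : u + 1 ≠ 0 := by rwa [add_comm]
        have h3 : S false a b ((a + u * b) / (1 + u)) = (a + u⁻¹ * b) / (1 + u⁻¹) := by
          simp only [S, Bool.false_eq_true, if_false]
          have e4 : (a + u⁻¹ * b) / (1 + u⁻¹) = (u * a + b) / (u + 1) := by
            field_simp
          rw [e4, eq_div_iff h2, add_mul, div_mul_eq_mul_div, add_comm u 1,
            mul_div_assoc, div_self h1, mul_one]
          have : (a + b) * (1 + u) + (a + u * b) = (a + a) + (u * b + u * b) + (u * a + b) := by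
            ring
          rw [this, CharTwo.add_self_eq_zero, CharTwo.add_self_eq_zero, zero_add, zero_add]
        rw [h3]
      rw [e2, ← nd1 u h] at e
      exact e
  have t2 : ∀ u : F, u ≠ 0 → Reach WW (BB γ) (a, false) (b, false) (nd u) (nd (c ^ 2 / u)) := by
    intro u hu
    by_cases h : u = c
    · have : c ^ 2 / u = u := by rw [h, pow_two]; field_simp
      rw [this]; exact Reach.refl
    · have hcu : c ^ 2 / u ≠ c := by
        intro h'
        rw [div_eq_iff hu, pow_two] at h'
        exact h (mul_left_cancel₀ hc0 h').symm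
      have hna : nd u ≠ (a, false) := by
        rw [nd3 u h]
        intro h'
        have h'' := congrArg tau h'
        rw [tau_tau, tau_ne ha] at h''
        exact xa u hu (Prod.mk.inj h'').1
      have hnb : nd u ≠ (b, false) := by
        rw [nd3 u h]
        intro h'
        have h'' := congrArg tau h'
        rw [tau_tau, tau_ne hb0] at h''
        exact xb u (Prod.mk.inj h'').1
      have e := Reach.black (w := WW) (b := BB γ) (p := (a, false)) (p' := (b, false))
        (x := nd u) hna hnb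
      have e2 : BB γ (a, false) (b, false) (nd u) = nd (c ^ 2 / u) := by
        rw [nd3 _ hcu]
        change tau (T true (γ ^ 2) (tau (a, false)) (tau (b, false)) (tau (nd u))) = _
        rw [tau_ne ha, tau_ne hb0, nd3 u h, tau_tau]
        change tau (S true a b ((a + u * b) / (1 + u)), false) = _
        have h1 := lin_ne u h
        have h2 := lin_ne _ hcu
        have h3 : S true a b ((a + u * b) / (1 + u)) =
            (a + c ^ 2 / u * b) / (1 + c ^ 2 / u) := by
          simp only [S, if_true]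
          rw [← inv_div (1 + c ^ 2 / u), inv_div]
          congr 1
          have e4 : (1 + c ^ 2 / u) / (a + c ^ 2 / u * b) = (u * b ^ 2 + a ^ 2) /
              (a * b * (a + u * b)) := by
            have h5 : u * b + a ≠ 0 := by rwa [add_comm]
            rw [div_eq_div_iff h2 (mul_ne_zero hab' h1), hc]
            field_simp
            ring
          have e5 : a⁻¹ + b⁻¹ + (1 + u) / (a + u * b) =
              ((a + b) * (a + u * b) + (1 + u) * (a * b)) / (a * b * (a + u * b)) := by
            rw [eq_div_iff (mul_ne_zero hab' h1)]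
            have e6 : (1 + u) / (a + u * b) * (a * b * (a + u * b)) = (1 + u) * (a * b) := by
              rw [div_mul_eq_mul_div, div_eq_iff h1]; ring
            have e7 : (a⁻¹ + b⁻¹) * (a * b) = a + b := by field_simp; ring
            rw [add_mul, e6, ← mul_assoc, e7]
          rw [e4, e5]
          congr 1
          have : (a + b) * (a + u * b) + (1 + u) * (a * b) =
            (a * b + a * b) + (a * b * u + a * b * u) + (u * b ^ 2 + a ^ 2) := by ring
          rw [this, CharTwo.add_self_eq_zero, CharTwo.add_self_eq_zero, zero_add, zero_add]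
        rw [h3]
      rw [e2] at e
      exact e
  have t3 : ∀ u : F, u ≠ 0 → Reach WW (BB γ) (a, false) (b, false) (nd u) (nd (c ^ 2 * u)) := by
    intro u hu
    have e1 := t1 u hu
    have e2 := t2 u⁻¹ (inv_ne_zero hu)
    rw [div_inv_eq_mul] at e2
    exact e1.trans e2
  have t4 := walk hw hb hp hgen nd hcc0 hcc1 t3
  refine Cn.of_base hw hb hp (1, true) ?_
  rintro ⟨x, e⟩ hx1 hx2
  cases e
  · have hxa : x ≠ a := by simpa using hx1
    have hxb : x ≠ b := by simpa using hx2
    have hxb' : x + b ≠ 0 := fun h => hxb ((CharTwo.add_eq_zero).1 h)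
    have hxa' : x + a ≠ 0 := fun h => hxa ((CharTwo.add_eq_zero).1 h)
    have hu0 : (x + a) / (x + b) ≠ 0 := div_ne_zero hxa' hxb'
    have hu1 : (x + a) / (x + b) ≠ 1 := by
      intro h
      rw [div_eq_one_iff_eq hxb'] at h
      exact hab (add_left_cancel h)
    have hnd : nd ((x + a) / (x + b)) = (x, false) := by
      rw [nd1 _ hu1]
      congr 1
      rw [div_eq_iff (one_add _ hu1)]
      field_simp
      have h2 : (2 : F) = 0 := CharTwo.two_eq_zero
      linear_combination (a * b - x ^ 2) * h2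
    have h1 := t4 _ 1 hu0 one_ne_zero
    rw [hnd, nd2] at h1
    exact h1.trans s5
  · by_cases hx : x = 0
    · subst hx; exact s5
    · exact s4 x 1 hx one_ne_zero

end

end H37M
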