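import Mathlib
import Pool.Agent.Lib.H37M.Pairs

/-!
For every Mersenne prime `2 ^ k - 1` there is a 3-neighborly normal 3-pseudomanifold with
`2 ^ (k + 1)` vertices.
-/

namespace H37M

theorem all_pairs {F : Type} [Field F] [Fintype F] [DecidableEq F] [CharP F 2] {γ : F}
    (hγ0 : γ ≠ 0) (hγ1 : γ ≠ 1)
    (hgen : ∀ g v : F, g ≠ 0 → g ≠ 1 → v ≠ 0 → ∃ n : ℕ, v = g ^ n)
    (hcyc : ∀ t : F, t ≠ 0 → ∃ n, rr γ n = t ∧ ∀ j, j ≤ n → rr γ j ≠ 0)
    (p p' : F × Bool) (hp : p ≠ p') : Cn WW (BB γ) p p' := by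
  have hw : SQ (WW : F × Bool → F × Bool → F × Bool → F × Bool) := SQ_W
  have hb := SQ_B hγ0
  -- pairs inside the first layer
  have Q1 : ∀ x : F, x ≠ 0 → Cn WW (BB γ) (x, false) (0, false) := by
    intro x hx
    have := sym_scale hx (typeQ hγ0 hγ1 hcyc)
    rwa [MM_f, MM_f, mul_one, mul_zero] at this
  have Q2 : ∀ x : F, x ≠ 0 → Cn WW (BB γ) (x, false) (0, true) := by
    intro x hx
    have := sym_swap hγ0 (Q1 x⁻¹ (inv_ne_zero hx))
    rwa [II_a, II_a, MM_f, MM_f, inv_inv, one_mul, inv_zero, mul_zero, tau_zero,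
      tau_ne hx] at this
  have A0 : ∀ x y : F, x ≠ y → Cn WW (BB γ) (x, false) (y, false) := by
    intro x y hxy
    by_cases hx : x = 0
    · subst hx
      exact (Q1 y hxy.symm).symm hw hb
    · by_cases hy : y = 0
      · subst hy; exact Q1 x hx
      · exact typeA hγ0 hγ1 hgen hx hy hxy
  have A1 : ∀ x y : F, x ≠ y → Cn WW (BB γ) (x, true) (y, true) := by
    intro x y hxy
    have := sym_flip (A0 x⁻¹ y⁻¹ (fun h => hxy (inv_injective h)))
    rwa [II_a, II_a, FF_a, FF_a, inv_inv, inv_inv] at this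
  have C0 : ∀ x y : F, Cn WW (BB γ) (x, false) (y, true) := by
    intro x y
    by_cases hx : x = 0
    · by_cases hy : y = 0
      · subst hx; subst hy
        exact typeZ hγ0 hγ1 hgen
      · subst hx
        have := sym_flip (Q2 y⁻¹ (inv_ne_zero hy))
        rw [II_a, II_a, FF_a, FF_a, inv_inv, inv_zero] at this
        exact this.symm hw hb
    · by_cases hy : y = 0
      · subst hy; exact Q2 x hx
      · exact typeC hγ0 hγ1 hgen hx hy
  obtain ⟨x, e⟩ := p
  obtain ⟨y, f⟩ := p'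
  cases e <;> cases f
  · exact A0 x y (fun h => hp (by rw [h]))
  · exact C0 x y
  · exact (C0 y x).symm hw hb
  · exact A1 x y (fun h => hp (by rw [h]))

theorem exists_of_field (F : Type) [Field F] [Fintype F] [DecidableEq F] [CharP F 2]
    (hq : 4 ≤ Fintype.card F) (hp : (Fintype.card F - 1).Prime) :
    Exists3Nbly (2 * Fintype.card F) := by
  obtain ⟨γ, hγ0, hγ1, hcyc⟩ := exists_gamma F hq
  have h5 : 5 ≤ Fintype.card (F × Bool) := by
    rw [Fintype.card_prod, Fintype.card_bool]; omega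
  obtain ⟨K, h1, h2, h3⟩ := main_complex (w := WW) (b := BB γ) SQ_W (SQ_B hγ0) h5
    (all_pairs hγ0 hγ1 (fun g v hg0 hg1 hv => gen_of_prime F hp hg0 hg1 hv) hcyc)
  refine ⟨F × Bool, inferInstance, K, h1, h2, ?_⟩
  rw [h3, Fintype.card_prod, Fintype.card_bool, mul_comm]

theorem exists_of_mersenne (k : ℕ) (hp : (mersenne k).Prime) : Exists3Nbly (2 ^ (k + 1)) := by
  have hk : 2 ≤ k := by
    by_contra h
    have : k = 0 ∨ k = 1 := by omega
    rcases this with rfl | rfl
    · norm_num [mersenne] at hp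
    · norm_num [mersenne] at hp
  have : Fact (Nat.Prime 2) := ⟨Nat.prime_two⟩
  let : Fintype (GaloisField 2 k) := Fintype.ofFinite _
  let : DecidableEq (GaloisField 2 k) := Classical.decEq _
  have hc : Fintype.card (GaloisField 2 k) = 2 ^ k := by
    rw [← Nat.card_eq_fintype_card, GaloisField.card 2 k (by omega)]
  have h4 : 4 ≤ 2 ^ k := by
    calc 4 = 2 ^ 2 := by norm_num
      _ ≤ 2 ^ k := Nat.pow_le_pow_right (by norm_num) hk
  have := exists_of_field (GaloisField 2 k) (by rw [hc]; exact h4) (by rw [hc]; exact hp)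
  rwa [hc, ← pow_succ'] at this

end H37M
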